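import Pool.Agent.W2helper73.EX.Main

/-!
# Odd group algebras with nilpotent elements: right ideals without small vectors
-/

namespace Pool.Agent.W2helper73.EX

variable {G : Type} [Group G] {c : G}

omit [Group G] in
theorem finite_small [Finite G] : {x : MonoidAlgebra ℚ G | SmallC x}.Finite := by
  have h1 : (Set.pi Set.univ fun _ : G => ({0, 1, -1} : Set ℚ)).Finite :=
    Set.Finite.pi fun _ => Set.toFinite _
  refine Set.Finite.of_finite_image (f := fun x : MonoidAlgebra ℚ G => (fun g => x.coeff g))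
    (h1.subset ?_) ?_
  · rintro _ ⟨x, hx, rfl⟩ g -
    exact hx g
  · intro x _ y _ hxy
    exact MonoidAlgebra.ext (Finsupp.ext fun g => congrFun hxy g)

/-- If the odd part has a nonzero element of square zero then some nonzero odd element has no
nonzero right multiple with coefficients `0`, `1`, `-1`. -/
theorem exists_bad [Finite G] (hc : ∀ g : G, c * g = g * c) (hc2 : c * c = 1)
    (hr : ¬ OddReduced G c) : ∃ B : MonoidAlgebra ℚ G, Odd c B ∧ B ≠ 0 ∧
      ∀ y, B * y ≠ 0 → ¬ SmallC (B * y) := by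
  classical
  by_contra hcon
  push Not at hcon
  unfold OddReduced at hr
  push Not at hr
  obtain ⟨a, ha, haa, ha0⟩ := hr
  let f : MonoidAlgebra ℚ G →ₗ[(MonoidAlgebra ℚ G)ᵐᵒᵖ] MonoidAlgebra ℚ G :=
    { toFun := fun x => a * x
      map_add' := fun x y => mul_add a x y
      map_smul' := fun r x => by
        change a * (x * r.unop) = a * x * r.unop
        rw [mul_assoc] }
  have hf : ∀ x, f x = a * x := fun x => rfl
  obtain ⟨S, hS⟩ := exists_isCompl (LinearMap.ker f)
  have hSinj : ∀ v ∈ S, a * v = 0 → v = 0 := by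
    intro v hv hav
    have h1 : v ∈ LinearMap.ker f ⊓ S := ⟨hav, hv⟩
    rw [hS.inf_eq_bot] at h1
    exact h1
  have hSr : ∀ v ∈ S, ∀ r : MonoidAlgebra ℚ G, v * r ∈ S := fun v hv r =>
    S.smul_mem (MulOpposite.op r) hv
  obtain ⟨s, hs, hs0⟩ : ∃ s ∈ S, s ≠ 0 := by
    by_contra h
    push Not at h
    have h1 : S = ⊥ := (Submodule.eq_bot_iff _).2 h
    have h2 := hS.sup_eq_top
    rw [h1, sup_bot_eq, LinearMap.ker_eq_top] at h2
    apply ha0
    have h3 : f 1 = 0 := by rw [h2]; rfl
    rwa [hf, mul_one] at h3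
  have hsa : a * s ≠ 0 := fun h => hs0 (hSinj s hs h)
  set s0 := s - s * MonoidAlgebra.of ℚ G c with hs0def
  have hs0S : s0 ∈ S := S.sub_mem hs (hSr s hs _)
  have hcc : MonoidAlgebra.of ℚ G c * MonoidAlgebra.of ℚ G c = 1 := by rw [← map_mul, hc2, map_one]
  have hs0odd : Odd c s0 := by
    unfold Odd
    rw [hs0def, mul_sub, ← mul_assoc, of_comm hc s, mul_assoc, hcc, mul_one, neg_sub]
  have hac : a * MonoidAlgebra.of ℚ G c = -a := Odd.right hc ha
  have has0 : a * s0 = (2 : ℚ) • (a * s) := by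
    rw [hs0def, mul_sub, ← of_comm hc s, ← mul_assoc, hac, neg_mul, sub_neg_eq_add, two_smul]
  have has0' : a * s0 ≠ 0 := by
    rw [has0]
    exact smul_ne_zero two_ne_zero hsa
  have hB : ∀ t : ℚ, Odd c (s0 + t • (a * s0)) ∧ s0 + t • (a * s0) ≠ 0 := by
    intro t
    constructor
    · have h1 : Odd c (t • (a * s0)) := (Odd.mul (c := c) ha s0).smul t
      unfold Odd at *
      rw [mul_add, hs0odd, h1, neg_add]
    · intro h
      have h1 : a * (s0 + t • (a * s0)) = 0 := by rw [h, mul_zero]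
      rw [mul_add, mul_smul_comm, ← mul_assoc, haa, zero_mul, smul_zero, add_zero] at h1
      exact has0' h1
  choose y hy using fun t : ℚ => hcon _ (hB t).1 (hB t).2
  have hfin : Finite {x : MonoidAlgebra ℚ G | SmallC x} := finite_small
  obtain ⟨t, t', htt, heq⟩ := Finite.exists_ne_map_eq_of_infinite
    (fun t : ℚ => (⟨_, (hy t).2⟩ : {x : MonoidAlgebra ℚ G | SmallC x}))
  have h1 : (s0 + t • (a * s0)) * y t = (s0 + t' • (a * s0)) * y t' := Subtype.mk.inj heq
  have hexp : ∀ (t : ℚ) (z : MonoidAlgebra ℚ G),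
      (s0 + t • (a * s0)) * z = s0 * z + t • (a * (s0 * z)) := by
    intro t z
    rw [add_mul, smul_mul_assoc, mul_assoc]
  set v := s0 * y t with hv
  set v' := s0 * y t' with hv'
  have h2 : v + t • (a * v) = v' + t' • (a * v') := by
    rw [hexp, hexp] at h1
    exact h1
  have hvS : v ∈ S := hSr _ hs0S _
  have hvS' : v' ∈ S := hSr _ hs0S _
  have h3 : a * v = a * v' := by
    have h4 := congrArg (fun x => a * x) h2
    simp only [mul_add, mul_smul_comm] at h4
    rwa [← mul_assoc a a v, ← mul_assoc a a v', haa, zero_mul, zero_mul, smul_zero, smul_zero,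
      add_zero, add_zero] at h4
  have h4 : v - v' = 0 := hSinj _ (S.sub_mem hvS hvS') (by rw [mul_sub, h3, sub_self])
  have h5 : v = v' := sub_eq_zero.1 h4
  rw [← h5, add_right_inj, ← sub_eq_zero, ← sub_smul, smul_eq_zero, sub_eq_zero] at h2
  have h6 : v = 0 := hSinj _ hvS (h2.resolve_left htt)
  refine (hy t).1 ?_
  have h7 : (s0 + t • (a * s0)) * y t = v + t • (a * v) := by
    rw [hexp]
  rw [h7, h6, mul_zero, smul_zero, add_zero]

end Pool.Agent.W2helper73.EX
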