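import Mathlib

/-!
# Idempotents in the odd part of a rational group algebra without nilpotent elements
-/

namespace Pool.Agent.W2helper73.EX

open Polynomial

/-- The ideal `{a | c * a = - a}` of the rational group algebra `ℚ[G]` contains no nonzero nilpotent
element (it suffices to consider elements with square zero). For a central element `c` of order two
this ideal is isomorphic to the quotient `ℚ[G] / (c + 1)`. -/
def OddReduced (G : Type) [Group G] (c : G) : Prop :=
  ∀ a : MonoidAlgebra ℚ G, MonoidAlgebra.of ℚ G c * a = -a → a * a = 0 → a = 0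

variable {G : Type} [Group G] {c : G}

/-- The elements of the odd part. -/
def Odd (c : G) (a : MonoidAlgebra ℚ G) : Prop := MonoidAlgebra.of ℚ G c * a = -a

theorem Odd.mul {a : MonoidAlgebra ℚ G} (h : Odd c a) (b : MonoidAlgebra ℚ G) :
    Odd c (a * b) := by
  unfold Odd at *
  rw [← mul_assoc, h, neg_mul]

theorem of_comm (hc : ∀ g : G, c * g = g * c) (a : MonoidAlgebra ℚ G) :
    MonoidAlgebra.of ℚ G c * a = a * MonoidAlgebra.of ℚ G c := MonoidAlgebra.of_commute (R := ℚ) (m := c) hc a

theorem Odd.mul' (hc : ∀ g : G, c * g = g * c) {a : MonoidAlgebra ℚ G} (h : Odd c a)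
    (b : MonoidAlgebra ℚ G) : Odd c (b * a) := by
  unfold Odd at *
  rw [← mul_assoc, of_comm hc b, mul_assoc, h, mul_neg]

theorem Odd.sub {a b : MonoidAlgebra ℚ G} (h : Odd c a) (h' : Odd c b) : Odd c (a - b) := by
  unfold Odd at *
  rw [mul_sub, h, h']
  abel

theorem Odd.smul {a : MonoidAlgebra ℚ G} (h : Odd c a) (q : ℚ) : Odd c (q • a) := by
  unfold Odd at *
  rw [mul_smul_comm, h, smul_neg]

theorem Odd.right (hc : ∀ g : G, c * g = g * c) {a : MonoidAlgebra ℚ G} (h : Odd c a) :
    a * MonoidAlgebra.of ℚ G c = -a := by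
  rw [← of_comm hc a]
  exact h

/-- Idempotents of the odd part are central. -/
theorem comm_of_idem (hc : ∀ g : G, c * g = g * c) (hr : OddReduced G c)
    {e : MonoidAlgebra ℚ G} (ho : Odd c e) (he : e * e = e) (a : MonoidAlgebra ℚ G) :
    e * a = a * e := by
  have h1 : (1 - e) * e = 0 := by rw [sub_mul, one_mul, he, sub_self]
  have h2 : e * (1 - e) = 0 := by rw [mul_sub, mul_one, he, sub_self]
  have hu : e * a * (1 - e) = 0 := by
    refine hr _ ((ho.mul a).mul _) ?_
    calc e * a * (1 - e) * (e * a * (1 - e)) = e * a * ((1 - e) * e) * (a * (1 - e)) := by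
          simp only [mul_assoc]
      _ = 0 := by rw [h1, mul_zero, zero_mul]
  have hv : (1 - e) * a * e = 0 := by
    refine hr _ (ho.mul' hc _) ?_
    calc (1 - e) * a * e * ((1 - e) * a * e) = (1 - e) * a * (e * (1 - e)) * (a * e) := by
          simp only [mul_assoc]
      _ = 0 := by rw [h2, mul_zero, zero_mul]
  rw [mul_sub, mul_one, sub_eq_zero] at hu
  rw [sub_mul, one_mul, sub_mul, sub_eq_zero] at hv
  rw [hu, hv]

/-- Multiples of idempotents of the group algebra commute with the odd part. -/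
theorem comm_of_sq (hc : ∀ g : G, c * g = g * c) (hc2 : c * c = 1) (hr : OddReduced G c)
    {s : MonoidAlgebra ℚ G} {k : ℚ} (hk : k ≠ 0) (hs : s * s = k • s) {a : MonoidAlgebra ℚ G}
    (ha : Odd c a) : s * a = a * s := by
  have hcc : MonoidAlgebra.of ℚ G c * MonoidAlgebra.of ℚ G c = 1 := by rw [← map_mul, hc2, map_one]
  have h1 : (1 - MonoidAlgebra.of ℚ G c) * (1 - MonoidAlgebra.of ℚ G c) = (2 : ℚ) • (1 - MonoidAlgebra.of ℚ G c) := by
    rw [mul_sub, sub_mul, sub_mul, one_mul, mul_one, one_mul, hcc, two_smul]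
    abel
  have hsc : s * (1 - MonoidAlgebra.of ℚ G c) = (1 - MonoidAlgebra.of ℚ G c) * s := by
    rw [mul_sub, sub_mul, mul_one, one_mul, of_comm hc s]
  have ho : Odd c ((1 - MonoidAlgebra.of ℚ G c) * s) := by
    unfold Odd
    rw [← mul_assoc, mul_sub, hcc, mul_one, ← neg_sub, neg_mul]
  have h2 : ((1 - MonoidAlgebra.of ℚ G c) * s) * ((1 - MonoidAlgebra.of ℚ G c) * s) = (2 * k) • ((1 - MonoidAlgebra.of ℚ G c) * s) := by
    calc ((1 - MonoidAlgebra.of ℚ G c) * s) * ((1 - MonoidAlgebra.of ℚ G c) * s) = ((1 - MonoidAlgebra.of ℚ G c) * (s * (1 - MonoidAlgebra.of ℚ G c))) * s := by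
          simp only [mul_assoc]
      _ = ((1 - MonoidAlgebra.of ℚ G c) * (1 - MonoidAlgebra.of ℚ G c)) * (s * s) := by rw [hsc]; simp only [mul_assoc]
      _ = (2 * k) • ((1 - MonoidAlgebra.of ℚ G c) * s) := by
          rw [h1, hs, smul_mul_smul_comm]
  have h3 := comm_of_idem hc hr (e := (2 * k)⁻¹ • ((1 - MonoidAlgebra.of ℚ G c) * s)) (ho.smul _) (by
    rw [smul_mul_smul_comm, h2, smul_smul]
    congr 1
    field_simp) a
  rw [smul_mul_assoc, mul_smul_comm] at h3
  have h4 := congrArg (fun x => (2 * k) • x) h3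
  simp only [smul_smul] at h4
  rw [mul_inv_cancel₀ (mul_ne_zero two_ne_zero hk), one_smul, one_smul] at h4
  have h5 : (1 - MonoidAlgebra.of ℚ G c) * s * a = (2 : ℚ) • (s * a) := by
    rw [← hsc, mul_assoc, sub_mul, one_mul, ha, sub_neg_eq_add, mul_add, two_smul]
  have h6 : a * ((1 - MonoidAlgebra.of ℚ G c) * s) = (2 : ℚ) • (a * s) := by
    rw [← mul_assoc, mul_sub, mul_one, ha.right hc, sub_neg_eq_add, add_mul, two_smul]
  rw [h5, h6] at h4
  exact smul_right_injective _ (two_ne_zero' ℚ) h4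

/-- The sum of the powers of an element. -/
noncomputable def geo (g : G) (n : ℕ) : MonoidAlgebra ℚ G := ∑ k ∈ Finset.range n, MonoidAlgebra.of ℚ G (g ^ k)

theorem of_mul_geo {g : G} {n : ℕ} (hg : g ^ n = 1) : MonoidAlgebra.of ℚ G g * geo g n = geo g n := by
  unfold geo
  rcases Nat.eq_zero_or_pos n with rfl | hn
  · simp
  rw [Finset.mul_sum]
  obtain ⟨m, rfl⟩ : ∃ m, n = m + 1 := ⟨n - 1, by omega⟩
  rw [Finset.sum_range_succ, Finset.sum_range_succ']
  rw [← map_mul, ← pow_succ', hg, pow_zero]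
  congr 1
  refine Finset.sum_congr rfl fun k _ => ?_
  rw [← map_mul, ← pow_succ']

theorem geo_mul_of {g : G} {n : ℕ} (hg : g ^ n = 1) : geo g n * MonoidAlgebra.of ℚ G g = geo g n := by
  have h1 : MonoidAlgebra.of ℚ G g * geo g n = geo g n * MonoidAlgebra.of ℚ G g := by
    unfold geo
    rw [Finset.mul_sum, Finset.sum_mul]
    refine Finset.sum_congr rfl fun k _ => ?_
    rw [← map_mul, ← map_mul, ← pow_succ', ← pow_succ]
  rw [← h1, of_mul_geo hg]

theorem of_pow_mul_geo {g : G} {n : ℕ} (hg : g ^ n = 1) (k : ℕ) :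
    MonoidAlgebra.of ℚ G (g ^ k) * geo g n = geo g n := by
  induction k with
  | zero => rw [pow_zero, map_one, one_mul]
  | succ k ih => rw [pow_succ, map_mul, mul_assoc, of_mul_geo hg, ih]

theorem geo_mul_geo {g : G} {n : ℕ} (hg : g ^ n = 1) : geo g n * geo g n = (n : ℚ) • geo g n := by
  have h1 : geo g n * geo g n = ∑ k ∈ Finset.range n, MonoidAlgebra.of ℚ G (g ^ k) * geo g n := by
    rw [← Finset.sum_mul]
    rfl
  rw [h1, Finset.sum_congr rfl (fun k _ => of_pow_mul_geo hg k), Finset.sum_const,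
    Finset.card_range, ← Nat.cast_smul_eq_nsmul ℚ]

/-- Every nonzero odd element divides a nonzero central idempotent of the odd part. -/
theorem exists_idem [Finite G] (hr : OddReduced G c) {B : MonoidAlgebra ℚ G}
    (hB : Odd c B) : ∃ y, (B * y) * (B * y) = B * y ∧ (B * y) * B = B := by
  have hfin : Module.Finite ℚ (MonoidAlgebra ℚ G) := inferInstance
  have key : ∀ (n : ℕ) (q : ℚ[X]), q.natDegree ≤ n → q ≠ 0 → B * aeval B q = 0 →
      ∃ q' : ℚ[X], q'.coeff 0 ≠ 0 ∧ B * aeval B q' = 0 := by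
    intro n
    induction n with
    | zero =>
      intro q hq hq0 hqB
      refine ⟨q, fun h0 => hq0 ?_, hqB⟩
      rw [eq_C_of_natDegree_le_zero hq, h0, map_zero]
    | succ n ih =>
      intro q hq hq0 hqB
      by_cases h0 : q.coeff 0 = 0
      · have h1 : divX q * X = q := by
          have := divX_mul_X_add q
          rwa [h0, map_zero, add_zero] at this
        have h2 : divX q ≠ 0 := fun h => hq0 (by rw [← h1, h, zero_mul])
        refine ih (divX q) (by rw [natDegree_divX_eq_natDegree_tsub_one]; omega) h2 ?_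
        refine hr _ (hB.mul _) ?_
        have hcomm : B * aeval B (divX q) = aeval B (divX q) * B := by
          have h3 : aeval B (X * divX q) = aeval B (divX q * X) := by rw [mul_comm]
          rwa [map_mul, map_mul, aeval_X] at h3
        calc B * aeval B (divX q) * (B * aeval B (divX q))
            = B * (aeval B (divX q) * B) * aeval B (divX q) := by simp only [mul_assoc]
          _ = B * (aeval B (divX q * X)) * aeval B (divX q) := by rw [map_mul, aeval_X]
          _ = 0 := by rw [h1, hqB, zero_mul]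
      · exact ⟨q, h0, hqB⟩
  have hint : IsIntegral ℚ B := Algebra.IsIntegral.isIntegral B
  obtain ⟨q, hq0, hq⟩ := key _ (minpoly ℚ B) le_rfl (minpoly.ne_zero hint) (by
    rw [minpoly.aeval, mul_zero])
  have hcomm : B * aeval B (divX q) = aeval B (divX q) * B := by
    have h3 : aeval B (X * divX q) = aeval B (divX q * X) := by rw [mul_comm]
    rwa [map_mul, map_mul, aeval_X] at h3
  have h1 : B * (aeval B (divX q) * B) + (q.coeff 0) • B = 0 := by
    have h2 := hq
    rw [← divX_mul_X_add q, map_add, map_mul, aeval_X, aeval_C, mul_add] at h2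
    rw [← h2, Algebra.algebraMap_eq_smul_one, mul_smul_comm, mul_one]
  have h5 : B * ((-(q.coeff 0)⁻¹) • aeval B (divX q)) * B = B := by
    rw [mul_smul_comm, smul_mul_assoc, mul_assoc]
    have h6 : B * (aeval B (divX q) * B) = -((q.coeff 0) • B) := eq_neg_of_add_eq_zero_left h1
    rw [h6, smul_neg, neg_smul, neg_neg, smul_smul, inv_mul_cancel₀ hq0, one_smul]
  refine ⟨(-(q.coeff 0)⁻¹) • aeval B (divX q), ?_, h5⟩
  rw [← mul_assoc, h5]

end Pool.Agent.W2helper73.EX
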