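import Pool.Agent.W2helper73.EX.Tr
import Pool.Agent.W2helper73.EX.Idem

/-!
# Coefficients of central idempotents on which all subgroups of prime order have sum zero
-/

namespace Pool.Agent.W2helper73.EX

open Polynomial

variable {G : Type} [Group G]

theorem coeff_mul_of (x : MonoidAlgebra ℚ G) (g h : G) :
    (x * MonoidAlgebra.of ℚ G g).coeff h = x.coeff (h * g⁻¹) := by
  rw [MonoidAlgebra.of_apply, MonoidAlgebra.coeff_mul_single_apply, mul_one]

theorem coeff_of_mul (x : MonoidAlgebra ℚ G) (g h : G) :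
    (MonoidAlgebra.of ℚ G g * x).coeff h = x.coeff (g⁻¹ * h) := by
  rw [MonoidAlgebra.of_apply, MonoidAlgebra.coeff_single_mul_apply, one_mul]

theorem coeff_mul_sum [Fintype G] (x y : MonoidAlgebra ℚ G) (h : G) :
    (x * y).coeff h = ∑ u, x.coeff u * y.coeff (u⁻¹ * h) := by
  rw [MonoidAlgebra.coeff_mul_apply_left, Finsupp.sum_fintype]
  intro i
  rw [zero_mul]

theorem coeff_mul_sum' [Fintype G] (x y : MonoidAlgebra ℚ G) (h : G) :
    (x * y).coeff h = ∑ u, x.coeff (h * u⁻¹) * y.coeff u := by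
  rw [MonoidAlgebra.coeff_mul_apply_right, Finsupp.sum_fintype]
  intro i
  rw [mul_zero]

/-- All sums over subgroups of prime order vanish on `e`. -/
def Faithful (e : MonoidAlgebra ℚ G) : Prop :=
  ∀ (p : ℕ) (g : G), p.Prime → orderOf g = p → e * geo g p = 0

theorem trace_mulLeft [Fintype G] (a : MonoidAlgebra ℚ G) :
    LinearMap.trace ℚ _ (LinearMap.mulLeft ℚ a) = Fintype.card G * a.coeff 1 := by
  classical
  rw [LinearMap.trace_eq_matrix_trace ℚ (MonoidAlgebra.basis G ℚ), Matrix.trace]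
  have h1 : ∀ g : G, Matrix.diag (LinearMap.toMatrix (MonoidAlgebra.basis G ℚ)
      (MonoidAlgebra.basis G ℚ) (LinearMap.mulLeft ℚ a)) g = a.coeff 1 := by
    intro g
    rw [Matrix.diag_apply, LinearMap.toMatrix_apply, MonoidAlgebra.basis_apply,
      LinearMap.mulLeft_apply]
    change (a * MonoidAlgebra.single g 1).coeff g = _
    rw [MonoidAlgebra.coeff_mul_single_apply, mul_inv_cancel, mul_one]
  rw [Finset.sum_congr rfl (fun g _ => h1 g), Finset.sum_const, Finset.card_univ, nsmul_eq_mul]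

variable {e : MonoidAlgebra ℚ G}

theorem aeval_geom (g : G) (m p : ℕ) :
    aeval (MonoidAlgebra.of ℚ G g) (∑ k ∈ Finset.range p, (X ^ m : ℚ[X]) ^ k) = geo (g ^ m) p := by
  rw [map_sum]
  unfold geo
  refine Finset.sum_congr rfl fun k _ => ?_
  rw [map_pow, map_pow, aeval_X, ← map_pow, ← map_pow]

theorem exists_inv [Finite G] (hcen : ∀ a, e * a = a * e)
    (hE : Faithful e) (g : G) {d : ℕ} (hd : d ∈ (orderOf g).properDivisors) :
    ∃ u : ℚ[X], aeval (MonoidAlgebra.of ℚ G g) (u * cyclotomic d ℚ) * e = e := by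
  rw [Nat.mem_properDivisors] at hd
  obtain ⟨⟨r, hr⟩, hlt⟩ := hd
  have hn : 0 < orderOf g := orderOf_pos g
  have hr1 : r ≠ 1 := by
    rintro rfl
    rw [mul_one] at hr
    omega
  obtain ⟨p, hp, s, rfl⟩ := Nat.exists_prime_and_dvd hr1
  have hm : orderOf g = p * (d * s) := by rw [hr]; ring
  have hord : orderOf (g ^ (d * s)) = p := by
    rw [orderOf_pow, hm, Nat.gcd_eq_right (dvd_mul_left _ _), Nat.mul_div_cancel]
    rcases Nat.eq_zero_or_pos (d * s) with h | h
    · rw [h, mul_zero] at hm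
      omega
    · exact h
  have h0 := hE p (g ^ (d * s)) hp hord
  rw [hcen] at h0
  obtain ⟨v, hv⟩ : cyclotomic d ℚ ∣
      ∑ k ∈ Finset.range p, ((X ^ (d * s) : ℚ[X]) ^ k) - C (p : ℚ) := by
    have h1 : cyclotomic d ℚ ∣ X ^ (d * s) - 1 := by
      refine (cyclotomic.dvd_X_pow_sub_one d ℚ).trans ?_
      rw [pow_mul]
      exact sub_one_dvd_pow_sub_one _ s
    have h2 : ∑ k ∈ Finset.range p, ((X ^ (d * s) : ℚ[X]) ^ k) - C (p : ℚ) =
        ∑ k ∈ Finset.range p, ((X ^ (d * s) : ℚ[X]) ^ k - 1) := by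
      rw [Finset.sum_sub_distrib, Finset.sum_const, Finset.card_range, nsmul_eq_mul, mul_one,
        map_natCast]
    rw [h2]
    exact Finset.dvd_sum fun k _ => h1.trans (sub_one_dvd_pow_sub_one _ k)
  have hp0 : (p : ℚ) ≠ 0 := by exact_mod_cast hp.ne_zero
  refine ⟨-(C (p : ℚ)⁻¹) * v, ?_⟩
  have h3 : -(C (p : ℚ)⁻¹) * v * cyclotomic d ℚ =
      1 - C (p : ℚ)⁻¹ * ∑ k ∈ Finset.range p, ((X ^ (d * s) : ℚ[X]) ^ k) := by
    have h4 : (C (p : ℚ)⁻¹ * C (p : ℚ) : ℚ[X]) = 1 := by
      rw [← C_mul, inv_mul_cancel₀ hp0, C_1]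
    linear_combination (C (p : ℚ)⁻¹) * hv + h4
  rw [h3, map_sub, map_one, map_mul, aeval_geom, sub_mul, one_mul, mul_assoc, h0, mul_zero,
    sub_zero]

theorem cyclotomic_mul [Finite G] (hcen : ∀ a, e * a = a * e) (hE : Faithful e)
    (g : G) : aeval (MonoidAlgebra.of ℚ G g) (cyclotomic (orderOf g) ℚ) * e = 0 := by
  classical
  have h1 : ∀ S : Finset ℕ, S ⊆ (orderOf g).properDivisors →
      ∃ u : ℚ[X], aeval (MonoidAlgebra.of ℚ G g) (u * ∏ d ∈ S, cyclotomic d ℚ) * e = e := by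
    intro S
    induction S using Finset.induction_on with
    | empty =>
      intro _
      exact ⟨1, by rw [Finset.prod_empty, mul_one, map_one, one_mul]⟩
    | insert d S hd ih =>
      intro hS
      obtain ⟨u, hu⟩ := ih fun x hx => hS (Finset.mem_insert_of_mem hx)
      obtain ⟨v, hv⟩ := exists_inv hcen hE g (hS (Finset.mem_insert_self d S))
      refine ⟨u * v, ?_⟩
      rw [Finset.prod_insert hd]
      have h2 : u * v * (cyclotomic d ℚ * ∏ d ∈ S, cyclotomic d ℚ) =
          (u * ∏ d ∈ S, cyclotomic d ℚ) * (v * cyclotomic d ℚ) := by ring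
      rw [h2, map_mul, mul_assoc, hv, hu]
  obtain ⟨u, hu⟩ := h1 _ (Finset.Subset.refl _)
  have hn : 0 < orderOf g := orderOf_pos g
  have h2 : cyclotomic (orderOf g) ℚ * ∏ d ∈ (orderOf g).properDivisors, cyclotomic d ℚ =
      X ^ orderOf g - 1 := by
    rw [← prod_cyclotomic_eq_X_pow_sub_one hn ℚ, ← Nat.cons_self_properDivisors hn.ne',
      Finset.prod_cons]
  rw [← hu, ← mul_assoc, ← map_mul]
  have h3 : cyclotomic (orderOf g) ℚ * (u * ∏ d ∈ (orderOf g).properDivisors, cyclotomic d ℚ) =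
      u * (X ^ orderOf g - 1) := by
    rw [← h2]
    ring
  rw [h3, map_mul, map_sub, map_pow, aeval_X, map_one, ← map_pow, pow_orderOf_eq_one, map_one,
    sub_self, mul_zero, zero_mul]

/-- The coefficients of a faithful central idempotent are determined by its value at `1`. -/
theorem coeff_formula [Fintype G] (he : e * e = e) (hcen : ∀ a, e * a = a * e)
    (hE : Faithful e) (g : G) :
    ((cyclotomic (orderOf g) ℚ).natDegree : ℚ) * e.coeff g⁻¹ =
      -(e.coeff 1 * (cyclotomic (orderOf g) ℚ).nextCoeff) := by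
  classical
  let V : Submodule ℚ (MonoidAlgebra ℚ G) := LinearMap.range (LinearMap.mulLeft ℚ e)
  have hV : ∀ v ∈ V, e * v = v := by
    rintro _ ⟨a, rfl⟩
    rw [LinearMap.mulLeft_apply, ← mul_assoc, he]
  have htr : ∀ a : MonoidAlgebra ℚ G, ∀ T : V →ₗ[ℚ] V, (∀ v : V, (T v : MonoidAlgebra ℚ G) =
      a * v) → LinearMap.trace ℚ V T = Fintype.card G * (a * e).coeff 1 := by
    intro a T hT
    rw [← trace_mulLeft]
    have h1 : T = (LinearMap.mulLeft ℚ e).rangeRestrict ∘ₗ (LinearMap.mulLeft ℚ a ∘ₗ V.subtype) := by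
      refine LinearMap.ext fun v => Subtype.ext ?_
      rw [hT]
      change a * v = e * (a * v)
      rw [← mul_assoc, hcen, mul_assoc, hV _ v.2]
    have h2 : LinearMap.mulLeft ℚ (a * e) =
        (LinearMap.mulLeft ℚ a ∘ₗ V.subtype) ∘ₗ (LinearMap.mulLeft ℚ e).rangeRestrict := by
      refine LinearMap.ext fun v => ?_
      change a * e * v = a * (e * v)
      rw [mul_assoc]
    rw [h1, h2]
    exact LinearMap.trace_comp_comm' _ _
  let T : V →ₗ[ℚ] V := (LinearMap.mulLeft ℚ (MonoidAlgebra.of ℚ G g)).restrict (p := V) (q := V) (by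
    rintro _ ⟨a, rfl⟩
    refine ⟨MonoidAlgebra.of ℚ G g * a, ?_⟩
    rw [LinearMap.mulLeft_apply, LinearMap.mulLeft_apply, LinearMap.mulLeft_apply, ← mul_assoc,
      hcen, mul_assoc])
  have hT : ∀ v : V, (T v : MonoidAlgebra ℚ G) = MonoidAlgebra.of ℚ G g * v := fun v => rfl
  have haev : ∀ (q : ℚ[X]) (v : V), ((aeval T q v : V) : MonoidAlgebra ℚ G) =
      aeval (MonoidAlgebra.of ℚ G g) q * v := by
    intro q
    induction q using Polynomial.induction_on' with
    | add a b ha hb =>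
      intro v
      rw [map_add, map_add, LinearMap.add_apply, add_mul, ← ha, ← hb]
      rfl
    | monomial n a =>
      intro v
      rw [aeval_monomial, aeval_monomial]
      induction n generalizing v with
      | zero =>
        rw [pow_zero, pow_zero, mul_one, mul_one, Module.algebraMap_end_apply,
          Algebra.algebraMap_eq_smul_one, smul_mul_assoc, one_mul]
        rfl
      | succ n ih =>
        rw [pow_succ, pow_succ, ← mul_assoc, ← mul_assoc, Module.End.mul_apply, ih, hT, mul_assoc,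
          mul_assoc, mul_assoc]
  have h0 : aeval T (cyclotomic (orderOf g) ℚ) = 0 := by
    refine LinearMap.ext fun v => Subtype.ext ?_
    rw [haev]
    have h1 := cyclotomic_mul hcen hE g
    have h2 := hV _ v.2
    rw [← h2, ← mul_assoc, h1, zero_mul]
    rfl
  have hn : 0 < orderOf g := orderOf_pos g
  have h1 := trace_of_irreducible T (cyclotomic.irreducible_rat hn) (cyclotomic.monic _ ℚ) h0
  rw [htr (MonoidAlgebra.of ℚ G g) T hT, coeff_of_mul, mul_one] at h1
  have h2 : (Module.finrank ℚ V : ℚ) = Fintype.card G * e.coeff 1 := by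
    rw [← LinearMap.trace_id (R := ℚ) (M := V), htr 1 LinearMap.id (fun v => by
      rw [one_mul]
      rfl), one_mul]
  rw [h2] at h1
  have h3 : (Fintype.card G : ℚ) ≠ 0 := by exact_mod_cast Fintype.card_ne_zero
  refine mul_left_cancel₀ h3 ?_
  linear_combination h1

/-- Two nonzero faithful central idempotents are not orthogonal. -/
theorem mul_ne_zero_of_faithful [Finite G] {e e' : MonoidAlgebra ℚ G}
    (he : e * e = e) (hcen : ∀ a, e * a = a * e) (hE : Faithful e)
    (he' : e' * e' = e') (hcen' : ∀ a, e' * a = a * e') (hE' : Faithful e') (h0 : e ≠ 0)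
    (h0' : e' ≠ 0) : e * e' ≠ 0 := by
  classical
  cases nonempty_fintype G
  intro hz
  let t : G → ℚ := fun g => -(cyclotomic (orderOf g) ℚ).nextCoeff /
    ((cyclotomic (orderOf g) ℚ).natDegree : ℚ)
  have hdeg : ∀ g : G, ((cyclotomic (orderOf g) ℚ).natDegree : ℚ) ≠ 0 := by
    intro g
    rw [natDegree_cyclotomic]
    exact_mod_cast (Nat.totient_pos.2 (orderOf_pos g)).ne'
  have hf : ∀ {f : MonoidAlgebra ℚ G}, f * f = f → (∀ a, f * a = a * f) → Faithful f →
      ∀ g, f.coeff g = t g * f.coeff 1 := by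
    intro f h1 h2 h3 g
    have h4 := coeff_formula h1 h2 h3 g⁻¹
    rw [inv_inv, orderOf_inv] at h4
    have h5 := hdeg g
    simp only [t]
    field_simp
    linear_combination h4
  have ht1 : t 1 = 1 := by
    simp only [t]
    rw [orderOf_one, cyclotomic_one]
    have h6 : (X - 1 : ℚ[X]).natDegree = 1 := by
      rw [← C_1]
      exact natDegree_X_sub_C 1
    have h7 : (X - 1 : ℚ[X]).nextCoeff = -1 := by
      rw [← C_1]
      exact nextCoeff_X_sub_C 1
    rw [h6, h7]
    norm_num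
  have ht : ∀ g, t g⁻¹ = t g := by
    intro g
    simp only [t]
    rw [orderOf_inv]
  have h1 : (e * e').coeff 1 = 0 := by
    rw [hz]
    rfl
  rw [coeff_mul_sum] at h1
  have h2 : ∑ u, e.coeff u * e'.coeff (u⁻¹ * 1) = e.coeff 1 * e'.coeff 1 * ∑ u, t u ^ 2 := by
    rw [Finset.mul_sum]
    refine Finset.sum_congr rfl fun u _ => ?_
    rw [mul_one, hf he hcen hE u, hf he' hcen' hE' u⁻¹, ht]
    ring
  rw [h2] at h1
  have h3 : 0 < ∑ u, t u ^ 2 := by
    refine Finset.sum_pos' (fun u _ => sq_nonneg _) ⟨1, Finset.mem_univ _, ?_⟩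
    rw [ht1]
    norm_num
  have h4 : ∀ {f : MonoidAlgebra ℚ G}, f * f = f → (∀ a, f * a = a * f) → Faithful f → f ≠ 0 →
      f.coeff 1 ≠ 0 := by
    intro f h5 h6 h7 h8 h9
    apply h8
    refine MonoidAlgebra.ext (Finsupp.ext fun g => ?_)
    rw [hf h5 h6 h7 g, h9, mul_zero]
    rfl
  exact mul_ne_zero (mul_ne_zero (h4 he hcen hE h0) (h4 he' hcen' hE' h0')) h3.ne' h1

end Pool.Agent.W2helper73.EX
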