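import Pool.Agent.W2helper73.EX.Exo

/-!
# The exact reach of the theorems of Bost and Deligne
-/

set_option linter.unusedSectionVars false

namespace Pool.Agent.W2helper73.EX

open NumberField Pool.Agent.H204R3.CM Pool.Agent.W547.KB Pool.Agent.W537.PC Module
  Pool.Agent.W527 Pool.Agent.W527.Vec Pool.Agent.W527.Per Pool.Agent.W527.Struct

variable {L : Type} [Field L] [NumberField L] [IsCMField L] [IsGalois ℚ L] (j : L →+* ℂ)

/-- The type functions on the Galois group of `L` of the CM types `A i`: for an embedding `φ` of the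
field of `A i` into `L` the function with the value `1` at those `σ` such that `j ∘ σ ∘ φ` lies in the
CM type, and `-1` at the others. -/
def typeFuns {ι : Type} (A : ι → CMPair) : Set ((L ≃ₐ[ℚ] L) → ℤ) :=
  {B | ∃ (i : ι) (φ : (A i).E →+* L), B = fun σ => (⟨A i, φ⟩ : Letter L).s j σ}

/-- Elements of the group generated by the type functions come from words. -/
theorem exists_word {ι : Type} (A : ι → CMPair) {B : (L ≃ₐ[ℚ] L) → ℤ}
    (hB : B ∈ AddSubgroup.closure (typeFuns j A)) :
    ∃ (n : ℕ) (x : Fin n → Σ i, ((A i).E →+* L)),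
      ∀ σ, ∑ k, (⟨A (x k).1, (x k).2⟩ : Letter L).s j σ = B σ := by
  classical
  -- lists
  suffices h : ∃ l : List (Σ i, ((A i).E →+* L)),
      ∀ σ, (l.map fun x => (⟨A x.1, x.2⟩ : Letter L).s j σ).sum = B σ by
    obtain ⟨l, hl⟩ := h
    refine ⟨l.length, l.get, fun σ => ?_⟩
    rw [← hl σ]
    have h1 : (l.map fun x => (⟨A x.1, x.2⟩ : Letter L).s j σ) =
        List.ofFn fun k => (⟨A (l.get k).1, (l.get k).2⟩ : Letter L).s j σ := by
      conv_lhs => rw [← List.ofFn_get l]
      rw [List.map_ofFn]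
      rfl
    rw [h1, List.sum_ofFn]
  induction hB using AddSubgroup.closure_induction with
  | mem B hB =>
    obtain ⟨i, φ, rfl⟩ := hB
    exact ⟨[⟨i, φ⟩], fun σ => by simp⟩
  | zero => exact ⟨[], fun σ => by simp⟩
  | add B B' _ _ hB hB' =>
    obtain ⟨l, hl⟩ := hB
    obtain ⟨l', hl'⟩ := hB'
    refine ⟨l ++ l', fun σ => ?_⟩
    rw [List.map_append, List.sum_append, hl, hl']
    rfl
  | neg B _ hB =>
    obtain ⟨l, hl⟩ := hB
    refine ⟨l.map fun x => ⟨x.1, cc L • x.2⟩, fun σ => ?_⟩
    rw [List.map_map, Pi.neg_apply, ← hl σ]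
    have h1 : ∀ l : List (Σ i, ((A i).E →+* L)),
        (l.map ((fun x => (⟨A x.1, x.2⟩ : Letter L).s j σ) ∘
          fun x => (⟨x.1, cc L • x.2⟩ : Σ i, ((A i).E →+* L)))).sum =
        -(l.map fun x => (⟨A x.1, x.2⟩ : Letter L).s j σ).sum := by
      intro l
      induction l with
      | nil => simp
      | cons x l ih =>
        rw [List.map_cons, List.sum_cons, ih, List.map_cons, List.sum_cons, neg_add]
        congr 1
        change ((⟨A x.1, x.2⟩ : Letter L).act (cc L)).s j σ = _
        rw [Letter.s_act, ← cc_comm j, Letter.s_cc]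
    exact h1 l

/-- **The exact criterion.** -/
theorem criterion {ι : Type} (A : ι → CMPair)
    (hj : ∀ i, ∀ ψ : (A i).E →+* ℂ, ∃ φ : (A i).E →+* L, j.comp φ = ψ) (K : Subfield ℂ)
    (hK : Countable K) :
    ((∀ B ∈ AddSubgroup.closure (typeFuns j A), B ≠ 0 → Small (cc L) B) →
      ∀ P : PeriodSystem, P.Bost → P.Deligne → AllHodge P A) ∧
    ((∀ P : PeriodSystem, P.Bost → P.Deligne → IndependentOver K P → AllHodge P A) →
      ∀ B ∈ AddSubgroup.closure (typeFuns j A), B ≠ 0 → Small (cc L) B) := by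
  classical
  constructor
  · intro h P hB hD J _ t k f hf
    refine hodge_of_drb_small j P hB hD (productOf A t) (fun a => hj (t a)) k (fun I h0 => ?_) f hf
    refine h _ ?_ h0
    have h1 : (fun σ : L ≃ₐ[ℚ] L =>
        ∑ l, (⟨(productOf A t).factor (I l).1, (I l).2⟩ : Letter L).s j σ) =
        ∑ l, fun σ : L ≃ₐ[ℚ] L =>
          (⟨(productOf A t).factor (I l).1, (I l).2⟩ : Letter L).s j σ := by
      funext σ
      rw [Finset.sum_apply]
    rw [h1]
    exact AddSubgroup.sum_mem _ fun l _ =>
      AddSubgroup.subset_closure ⟨t (I l).1, (I l).2, rfl⟩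
  · intro h B hB h0
    by_contra hns
    obtain ⟨n, x, hx⟩ := exists_word j A hB
    have hodd : ∀ g, B (cc L * g) = -B g := by
      intro g
      rw [← hx, ← hx, ← Finset.sum_neg_distrib]
      exact Finset.sum_congr rfl fun k _ => Letter.s_cc j g _
    obtain ⟨P, hPB, hPD, hPW, hP⟩ := exists_exotic j K hK hodd hns
    let w : Fin (2 * n) → Letter L := fun k =>
      ⟨A (x (finProdFinEquiv.symm k).2).1, (x (finProdFinEquiv.symm k).2).2⟩
    have hw : ∀ σ, ∑ k, (w k).s j σ = 2 * B σ := by
      intro σ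
      have h1 : ∑ k, (w k).s j σ = ∑ p : Fin 2 × Fin n,
          (⟨A (x p.2).1, (x p.2).2⟩ : Letter L).s j σ := by
        refine Fintype.sum_equiv finProdFinEquiv.symm _ _ fun k => rfl
      rw [h1, Fintype.sum_prod_type, Fin.sum_univ_two, hx]
      ring
    have h1 := hP n w 2 hw
    have h2 : IsHodge (wordX w).per (trForm 1 (wordI w)) :=
      h P hPB hPD hPW (Fin (2 * n)) (fun k => (x (finProdFinEquiv.symm k).2).1) n _ h1
    apply h0
    funext σ
    have h3 := balanced_of_hodge_word j w h2 σ
    rw [hw] at h3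
    have h4 : B σ = 0 := by omega
    exact h4

/-- The family of all CM types on `L`. -/
def allTypes (L : Type) [Field L] [NumberField L] [IsCMField L] :
    {Φ : Set (L →+* ℂ) // IsCMType Φ} → CMPair := fun Φ => ⟨L, Φ.1, Φ.2⟩

/-- There are half systems of automorphisms. -/
theorem exists_isHalf (L : Type) [Field L] [NumberField L] [IsCMField L] [IsGalois ℚ L] :
    ∃ S : Set (L ≃ₐ[ℚ] L), IsHalf S := by
  classical
  let e := Fintype.equivFin (L ≃ₐ[ℚ] L)
  refine ⟨{g | e g < e (cc L * g)}, fun g => ?_⟩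
  have h1 : cc L * (cc L * g) = g := by rw [← mul_assoc, cc_cc, one_mul]
  have h2 : e g ≠ e (cc L * g) := by
    intro h
    have h3 := e.injective h
    exact cc_ne (L := L) (mul_eq_right.1 h3.symm)
  change e g < e (cc L * g) ↔ ¬ (e (cc L * g) < e (cc L * (cc L * g)))
  rw [h1]
  constructor
  · intro h
    exact not_lt.2 h.le
  · intro h
    exact lt_of_le_of_ne (not_lt.1 h) h2

/-- Twice an odd function is a combination of type functions. -/
theorem two_mul_mem {B : (L ≃ₐ[ℚ] L) → ℤ} (hodd : ∀ g, B (cc L * g) = -B g) :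
    (fun g => 2 * B g) ∈ AddSubgroup.closure (typeFuns j (allTypes L)) := by
  classical
  obtain ⟨S, hS⟩ := exists_isHalf L
  have hcc : ∀ g : L ≃ₐ[ℚ] L, cc L * (cc L * g) = g := fun g => by
    rw [← mul_assoc, cc_cc, one_mul]
  have hne : ∀ g : L ≃ₐ[ℚ] L, cc L * g ≠ g := fun g h =>
    cc_ne (L := L) (mul_eq_right.1 h)
  -- the type function of a half system
  have hmem : ∀ T : Set (L ≃ₐ[ℚ] L), IsHalf T →
      (fun σ => if σ ∈ T then (1 : ℤ) else -1) ∈
        AddSubgroup.closure (typeFuns j (allTypes L)) := by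
    intro T hT
    refine AddSubgroup.subset_closure ⟨⟨typeOf j T, isCMType_typeOf j hT⟩, RingHom.id L, ?_⟩
    funext σ
    have h1 : j.comp (σ • RingHom.id L) ∈ typeOf j T ↔ σ ∈ T := mem_typeOf j T σ
    change _ = if j.comp (σ • RingHom.id L) ∈ typeOf j T then (1 : ℤ) else -1
    by_cases h : σ ∈ T
    · rw [if_pos h, if_pos (h1.2 h)]
    · rw [if_neg h, if_neg (fun h2 => h (h1.1 h2))]
  obtain ⟨fl, hfldef⟩ : ∃ fl : (L ≃ₐ[ℚ] L) → Set (L ≃ₐ[ℚ] L),
      ∀ g σ, σ ∈ fl g ↔ (σ ∈ S ∧ σ ≠ g) ∨ σ = cc L * g :=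
    ⟨fun g => {σ | (σ ∈ S ∧ σ ≠ g) ∨ σ = cc L * g}, fun g σ => Iff.rfl⟩
  have hfl : ∀ g ∈ S, IsHalf (fl g) := by
    intro g hg σ
    have h1 := hS σ
    have h2 := hS g
    rw [hfldef, hfldef]
    have h3 : cc L * σ = cc L * g ↔ σ = g := mul_right_inj _
    have h4 : cc L * σ = g ↔ σ = cc L * g := by
      constructor
      · intro h
        rw [← h, hcc]
      · intro h
        rw [h, hcc]
    by_cases h5 : σ = g
    · subst h5
      have h6 := hne σ
      simp only [ne_eq, not_true_eq_false, and_false, false_or, or_true, iff_false]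
      exact fun h => h6 h.symm
    · by_cases h6 : σ = cc L * g
      · have h7 : σ ∉ S := by
          rw [h6]
          exact h2.1 hg
        constructor
        · rintro - (⟨-, h⟩ | h)
          · exact h (by rw [h6, hcc])
          · exact h5 (h3.1 h)
        · intro _
          exact Or.inr h6
      · simp only [h3, h5, h6, h4, not_false_eq_true, and_true, or_false, ne_eq]
        exact h1
  have hsum : (fun g => 2 * B g) = ∑ g ∈ Finset.univ.filter (fun g => g ∈ S), B g •
      ((fun σ => if σ ∈ S then (1 : ℤ) else -1) -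
        (fun σ => if σ ∈ fl g then (1 : ℤ) else -1)) := by
    funext σ
    rw [Finset.sum_apply]
    have hterm : ∀ g ∈ Finset.univ.filter (fun g => g ∈ S),
        (B g • ((fun σ => if σ ∈ S then (1 : ℤ) else -1) -
          (fun σ => if σ ∈ fl g then (1 : ℤ) else -1))) σ =
        (if g = σ then 2 * B σ else 0) + (if g = cc L * σ then 2 * B σ else 0) := by
      intro g hg
      have hgS : g ∈ S := (Finset.mem_filter.1 hg).2
      change B g * ((if σ ∈ S then (1 : ℤ) else -1) - (if σ ∈ fl g then (1 : ℤ) else -1)) = _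
      by_cases h1 : g = σ
      · subst h1
        have h2 : g ∉ fl g := by
          rw [hfldef]
          rintro (⟨-, h⟩ | h)
          · exact h rfl
          · exact hne g h.symm
        rw [if_pos hgS, if_neg h2, if_pos rfl, if_neg (fun h => hne g h.symm)]
        ring
      · by_cases h2 : g = cc L * σ
        · have h3 : σ = cc L * g := by rw [h2, hcc]
          have h4 : σ ∈ fl g := (hfldef g σ).2 (Or.inr h3)
          have h5 : σ ∉ S := by
            rw [h3]
            exact (hS g).1 hgS
          rw [if_neg h5, if_pos h4, if_neg h1, if_pos h2]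
          have h6 : B g = -B σ := by rw [h2, hodd]
          rw [h6]
          ring
        · have h3 : σ ∈ fl g ↔ σ ∈ S := by
            refine (hfldef g σ).trans ?_
            constructor
            · rintro (⟨h, -⟩ | h)
              · exact h
              · exact absurd (by rw [h, hcc]) h2
            · intro h
              exact Or.inl ⟨h, fun h' => h1 h'.symm⟩
          rw [if_neg h1, if_neg h2]
          by_cases h4 : σ ∈ S
          · rw [if_pos h4, if_pos (h3.2 h4)]
            ring
          · rw [if_neg h4, if_neg (fun h => h4 (h3.1 h))]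
            ring
    rw [Finset.sum_congr rfl hterm, Finset.sum_add_distrib, Finset.sum_ite_eq',
      Finset.sum_ite_eq']
    by_cases h : σ ∈ S
    · rw [if_pos (Finset.mem_filter.2 ⟨Finset.mem_univ _, h⟩), if_neg, add_zero]
      intro h1
      exact (hS σ).1 h (Finset.mem_filter.1 h1).2
    · have h1 : cc L * σ ∈ S := by
        by_contra h2
        exact h ((hS σ).2 h2)
      rw [if_neg (fun h2 => h (Finset.mem_filter.1 h2).2),
        if_pos (Finset.mem_filter.2 ⟨Finset.mem_univ _, h1⟩), zero_add]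
  rw [hsum]
  exact AddSubgroup.sum_mem _ fun g hg => AddSubgroup.zsmul_mem _
    (AddSubgroup.sub_mem _ (hmem S hS) (hmem _ (hfl g (Finset.mem_filter.1 hg).2))) _

theorem small_of_two_mul {B : (L ≃ₐ[ℚ] L) → ℤ} (h : Small (cc L) fun g => 2 * B g) :
    Small (cc L) B := by
  obtain ⟨n, N, h, hN, h0, hval, hodd, hrel⟩ := h
  refine ⟨fun u => 2 * n u, N, h, hN, h0, hval, hodd, fun g => ?_⟩
  rw [← hrel g]
  refine Finset.sum_congr rfl fun u _ => ?_
  ring

/-- If de Rham-Betti classes are Hodge classes for all CM types on the Galois CM field `L` and for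
all period systems with the theorems of Bost and Deligne and with independence of the periods over
the countable field `K` then `L` is reduced. -/
theorem reduced_of_all (K : Subfield ℂ) (hK : Countable K)
    (h : ∀ P : PeriodSystem, P.Bost → P.Deligne → IndependentOver K P →
      AllHodge P (allTypes L)) : OddReduced (L ≃ₐ[ℚ] L) (cc L) := by
  classical
  obtain ⟨j⟩ : Nonempty (L →+* ℂ) := inferInstance
  by_contra hr
  obtain ⟨B, hodd, h0, hns⟩ := exists_not_small (G := L ≃ₐ[ℚ] L) (c := cc L)
    (fun g => cc_comm j g) cc_cc hr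
  have hj : ∀ i, ∀ ψ : (allTypes L i).E →+* ℂ, ∃ φ : (allTypes L i).E →+* L, j.comp φ = ψ := by
    intro i ψ
    obtain ⟨σ, hσ⟩ := comp_surjective j ψ
    exact ⟨(σ : L →+* L), hσ⟩
  refine hns (small_of_two_mul ((criterion j (allTypes L) hj K hK).2 h _ (two_mul_mem j hodd) ?_))
  intro h1
  apply h0
  funext g
  have h2 := congrFun h1 g
  change 2 * B g = 0 at h2
  have h3 : B g = 0 := by omega
  exact h3

end Pool.Agent.W2helper73.EX
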