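import Pool.Agent.W2helper73.EX.Tf

/-!
# The theorem of Deligne for the period systems of linear maps
-/

namespace Pool.Agent.W2helper73.EX

open NumberField Pool.Agent.H204R3.CM Pool.Agent.W547.KB Pool.Agent.W537.PC Module
  Pool.Agent.W527 Pool.Agent.W527.Vec

noncomputable section

theorem deligne_sysOf (l : ((ℂ ≃+* ℂ) → ℚ) →ₗ[ℚ] ℂ) : (sysOf l).Deligne := by
  classical
  intro X k f hf
  obtain ⟨L, hNF, hG, j, hj⟩ := exists_galois (fun i : X.I => (X.factor i).E)
  obtain ⟨c, hc⟩ := form_coeff (E := fun i : X.I => (X.factor i).E) (fun i : X.I => i) j hj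
    f.toMultilinearMap
  -- the monomials have the right periods
  have hper : ∀ I : Fin (2 * k) → Wt X L, c I ≠ 0 →
      ∏ l', (sysOf l).θ (X.factor (I l').1) (j.comp (I l').2) = (2 * Real.pi * Complex.I) ^ k := by
    intro I hI
    have h1 := prod_sysOf l (k := k) (fun l' => X.factor (I l').1) (fun l' => j.comp (I l').2)
    have h2 : ∑ l', tf (X.factor (I l').1) (j.comp (I l').2) = 0 := by
      funext τ
      obtain ⟨g, hg⟩ := exists_lift j τ
      have h3 := balanced_of_hodge (E := fun i : X.I => (X.factor i).E)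
        (Φ := fun i : X.I => (X.factor i).Φ) (fun i : X.I => i) j
        (fun i => (X.factor i).isCMType) hj f hf c hc I hI g
      rw [Finset.sum_apply]
      have h4 : ∀ l', tf (X.factor (I l').1) (j.comp (I l').2) τ =
          ((if j.comp (g • (I l').2) ∈ (X.factor (I l').1).Φ then (1 : ℤ) else -1 : ℤ) : ℚ) := by
        intro l'
        unfold tf
        rw [lifts_comp j hg]
        push_cast
        rfl
      rw [Finset.sum_congr rfl (fun l' _ => h4 l'), ← Int.cast_sum]
      change ((∑ l', (if j.comp (g • (I l').2) ∈ (X.factor (I l').1).Φ then (1 : ℤ) else -1) :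
        ℤ) : ℚ) = 0
      exact_mod_cast h3
    rw [h2, map_zero, Complex.exp_zero] at h1
    rw [div_eq_one_iff_eq (pow_ne_zero k Complex.two_pi_I_ne_zero)] at h1
    exact h1
  unfold PeriodSystem.IsDRB
  have hcard : ((Fintype.card (Equiv.Perm (Fin (2 * k))) : ℕ) : ℂ) ≠ 0 :=
    Nat.cast_ne_zero.2 Fintype.card_ne_zero
  have halg : ∀ I : Fin (2 * k) → Wt X L,
      j (c I) / ((Fintype.card (Equiv.Perm (Fin (2 * k))) : ℕ) : ℂ) ∈ algebraicClosure ℚ ℂ := by
    intro I
    refine div_mem ?_ (natCast_mem _ _)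
    rw [mem_algebraicClosure_iff]
    have h5 : IsAlgebraic ℚ (c I) := Algebra.IsAlgebraic.isAlgebraic _
    exact (isAlgebraic_algHom_iff (RingHom.equivRatAlgHom L ℂ j) j.injective).2 h5
  have hval : ∀ v : Fin (2 * k) → X.H1, (2 * Real.pi * Complex.I) ^ k * ((f v : ℚ) : ℂ) =
      ∑ I : Fin (2 * k) → Wt X L, j (c I) *
        ∏ l', (sysOf l).form X (I l').1 (j.comp (I l').2) (v l') := by
    intro v
    have h1 := congrArg j (hc v)
    rw [map_ratCast, map_sum] at h1
    have h1' : ((f v : ℚ) : ℂ) = ∑ I : Fin (2 * k) → Wt X L,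
        j (c I * ∏ l', (I l').2 (v l' (I l').1)) := h1
    rw [h1', Finset.mul_sum]
    refine Finset.sum_congr rfl fun I _ => ?_
    rw [map_mul, map_prod]
    by_cases hI : c I = 0
    · rw [hI, map_zero, zero_mul, zero_mul, mul_zero]
    · have h2 : ∏ l', (sysOf l).form X (I l').1 (j.comp (I l').2) (v l') =
          (2 * Real.pi * Complex.I) ^ k * ∏ l', j ((I l').2 (v l' (I l').1)) := by
        rw [← hper I hI, ← Finset.prod_mul_distrib]
        rfl
      rw [h2]
      ring
  have hfun : (fun v : Fin (2 * k) → X.H1 => (2 * Real.pi * Complex.I) ^ k * ((f v : ℚ) : ℂ)) =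
      ∑ I : Fin (2 * k) → Wt X L,
        (⟨j (c I) / ((Fintype.card (Equiv.Perm (Fin (2 * k))) : ℕ) : ℂ), halg I⟩ :
          algebraicClosure ℚ ℂ) • (fun v : Fin (2 * k) → X.H1 => Matrix.det (Matrix.of fun a b =>
            (sysOf l).form X (I b).1 (j.comp (I b).2) (v a))) := by
    funext v
    rw [Finset.sum_apply]
    have h1 : ((Fintype.card (Equiv.Perm (Fin (2 * k))) : ℕ) : ℂ) *
        ((2 * Real.pi * Complex.I) ^ k * ((f v : ℚ) : ℂ)) =
        ∑ I : Fin (2 * k) → Wt X L, j (c I) * Matrix.det (Matrix.of fun a b =>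
            (sysOf l).form X (I b).1 (j.comp (I b).2) (v a)) := by
      have h2 : ∀ σ : Equiv.Perm (Fin (2 * k)), (2 * Real.pi * Complex.I) ^ k * ((f v : ℚ) : ℂ) =
          ((Equiv.Perm.sign σ : ℤ) : ℂ) * ∑ I : Fin (2 * k) → Wt X L, j (c I) *
            ∏ l', (sysOf l).form X (I l').1 (j.comp (I l').2) (v (σ l')) := by
        intro σ
        have h3 := hval (fun l' => v (σ l'))
        have h4 : f (fun l => v (σ l)) = Equiv.Perm.sign σ • f v := f.map_perm v σ
        rw [← h3, h4, Units.smul_def, zsmul_eq_mul, Rat.cast_mul, Rat.cast_intCast]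
        have h5 : ((Equiv.Perm.sign σ : ℤ) : ℂ) * ((Equiv.Perm.sign σ : ℤ) : ℂ) = 1 := by
          rw [← Int.cast_mul, ← Units.val_mul, Int.units_mul_self, Units.val_one, Int.cast_one]
        linear_combination (-((2 * Real.pi * Complex.I) ^ k * ((f v : ℚ) : ℂ))) * h5
      have h3 : ((Fintype.card (Equiv.Perm (Fin (2 * k))) : ℕ) : ℂ) *
          ((2 * Real.pi * Complex.I) ^ k * ((f v : ℚ) : ℂ)) =
          ∑ _σ : Equiv.Perm (Fin (2 * k)), (2 * Real.pi * Complex.I) ^ k * ((f v : ℚ) : ℂ) := by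
        rw [Finset.sum_const, Finset.card_univ, nsmul_eq_mul]
      rw [h3, Finset.sum_congr rfl (fun σ _ => h2 σ)]
      simp only [Finset.mul_sum]
      rw [Finset.sum_comm]
      refine Finset.sum_congr rfl fun I _ => ?_
      rw [Matrix.det_apply', Finset.mul_sum]
      refine Finset.sum_congr rfl fun σ _ => ?_
      change ((Equiv.Perm.sign σ : ℤ) : ℂ) * (j (c I) *
        ∏ l', (sysOf l).form X (I l').1 (j.comp (I l').2) (v (σ l'))) =
        j (c I) * (((Equiv.Perm.sign σ : ℤ) : ℂ) *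
          ∏ l', (sysOf l).form X (I l').1 (j.comp (I l').2) (v (σ l')))
      ring
    have h2 : ((2 * Real.pi * Complex.I) ^ k * ((f v : ℚ) : ℂ)) =
        (∑ I : Fin (2 * k) → Wt X L, j (c I) * Matrix.det (Matrix.of fun a b =>
            (sysOf l).form X (I b).1 (j.comp (I b).2) (v a))) /
          ((Fintype.card (Equiv.Perm (Fin (2 * k))) : ℕ) : ℂ) := by
      rw [← h1, mul_div_cancel_left₀ _ hcard]
    rw [h2, Finset.sum_div]
    refine Finset.sum_congr rfl fun I _ => ?_
    change _ = (j (c I) / ((Fintype.card (Equiv.Perm (Fin (2 * k))) : ℕ) : ℂ)) *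
      Matrix.det (Matrix.of fun a b => (sysOf l).form X (I b).1 (j.comp (I b).2) (v a))
    ring
  rw [hfun]
  refine Submodule.sum_mem _ fun I _ => Submodule.smul_mem _ _ (Submodule.subset_span ?_)
  exact ⟨fun b => ⟨(I b).1, j.comp (I b).2⟩, rfl⟩

end

end Pool.Agent.W2helper73.EX
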