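import Pool.Agent.W2helper73.EX.Crit

/-!
# Reduced odd group algebras: examples, and consequences for subfields
-/

set_option linter.unusedSectionVars false

namespace Pool.Agent.W2helper73.EX

open NumberField Pool.Agent.H204R3.CM Pool.Agent.W547.KB Pool.Agent.W537.PC Module

section groups

variable {G : Type} [Group G] {c : G}

/-- All subgroups that do not contain `c` are normal. -/
theorem normal_of_reduced [Finite G] (hc : ∀ g : G, c * g = g * c) (hc2 : c * c = 1)
    (hr : OddReduced G c) (H : Subgroup G) (hH : c ∉ H) : H.Normal := by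
  refine ⟨fun h hh x => ?_⟩
  have h1 : Subgroup.zpowers h ≤ H := Subgroup.zpowers_le.2 hh
  have h2 := normal_zpowers hc hc2 hr (a := h) (fun h3 => hH (h1 h3))
  exact h1 (h2.conj_mem h (Subgroup.mem_zpowers h) x)

/-- The involution `g ↦ g⁻¹` of the group algebra. -/
noncomputable def st [Finite G] (a : MonoidAlgebra ℚ G) : MonoidAlgebra ℚ G :=
  MonoidAlgebra.ofCoeff (Finsupp.equivFunOnFinite.symm fun g => a.coeff g⁻¹)

theorem coeff_st [Finite G] (a : MonoidAlgebra ℚ G) (g : G) : (st a).coeff g = a.coeff g⁻¹ := rfl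

theorem st_st [Finite G] (a : MonoidAlgebra ℚ G) : st (st a) = a := by
  refine MonoidAlgebra.ext (Finsupp.ext fun g => ?_)
  rw [coeff_st, coeff_st, inv_inv]

theorem st_add [Finite G] (a b : MonoidAlgebra ℚ G) : st (a + b) = st a + st b :=
  MonoidAlgebra.ext (Finsupp.ext fun _ => rfl)

theorem st_smul [Finite G] (r : ℚ) (a : MonoidAlgebra ℚ G) : st (r • a) = r • st a :=
  MonoidAlgebra.ext (Finsupp.ext fun _ => rfl)

theorem st_of [Finite G] (g : G) : st (MonoidAlgebra.of ℚ G g) = MonoidAlgebra.of ℚ G g⁻¹ := by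
  classical
  refine MonoidAlgebra.ext (Finsupp.ext fun h => ?_)
  rw [coeff_st, MonoidAlgebra.of_apply, MonoidAlgebra.of_apply, MonoidAlgebra.coeff_single,
    MonoidAlgebra.coeff_single, Finsupp.single_apply, Finsupp.single_apply]
  congr 1
  rw [eq_iff_iff]
  constructor
  · rintro rfl
    rw [inv_inv]
  · rintro rfl
    rw [inv_inv]

theorem st_mul [Finite G] (a b : MonoidAlgebra ℚ G) : st (a * b) = st b * st a := by
  classical
  cases nonempty_fintype G
  refine MonoidAlgebra.ext (Finsupp.ext fun g => ?_)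
  rw [coeff_st, coeff_mul_sum, coeff_mul_sum']
  refine Fintype.sum_equiv (Equiv.inv G) _ _ fun u => ?_
  rw [Equiv.inv_apply, coeff_st, coeff_st, inv_inv, mul_comm (b.coeff _), mul_inv_rev]

theorem eq_zero_of_mul_st [Finite G] {a : MonoidAlgebra ℚ G} (h : a * st a = 0) : a = 0 := by
  classical
  cases nonempty_fintype G
  have h1 : (a * st a).coeff 1 = 0 := by rw [h]; rfl
  rw [coeff_mul_sum] at h1
  have h2 : ∀ u, a.coeff u * (st a).coeff (u⁻¹ * 1) = a.coeff u * a.coeff u := by
    intro u
    rw [coeff_st, mul_one, inv_inv]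
  rw [Finset.sum_congr rfl (fun u _ => h2 u)] at h1
  refine MonoidAlgebra.ext (Finsupp.ext fun g => ?_)
  have h3 := (Finset.sum_eq_zero_iff_of_nonneg (fun g _ => mul_self_nonneg (a.coeff g))).1 h1 g
    (Finset.mem_univ g)
  exact mul_self_eq_zero.1 h3

/-- The odd group algebra is reduced if conjugation by any element maps any element `g` with
`g * g ≠ c` to `g` or to its inverse. -/
theorem oddReduced_of_conj [Finite G] (hc : ∀ g : G, c * g = g * c) (hc2 : c * c = 1)
    (h : ∀ g x : G, x⁻¹ * g * x = g ∨ x⁻¹ * g * x = g⁻¹ ∨ g * g = c) : OddReduced G c := by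
  classical
  have hcc : MonoidAlgebra.of ℚ G c * MonoidAlgebra.of ℚ G c = 1 := by rw [← map_mul, hc2, map_one]
  have hcinv : c⁻¹ = c := inv_eq_of_mul_eq_one_left hc2
  have hK : ∀ g x : G, (MonoidAlgebra.of ℚ G g + MonoidAlgebra.of ℚ G g⁻¹) * ((1 - MonoidAlgebra.of ℚ G c) * MonoidAlgebra.of ℚ G x) =
      MonoidAlgebra.of ℚ G x * ((MonoidAlgebra.of ℚ G g + MonoidAlgebra.of ℚ G g⁻¹) * (1 - MonoidAlgebra.of ℚ G c)) := by
    intro g x
    have h1 : (1 - MonoidAlgebra.of ℚ G c) * MonoidAlgebra.of ℚ G x = MonoidAlgebra.of ℚ G x * (1 - MonoidAlgebra.of ℚ G c) := by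
      rw [sub_mul, mul_sub, one_mul, mul_one, of_comm hc]
    rw [h1, ← mul_assoc, ← mul_assoc]
    rcases h g x with h2 | h2 | h2
    · congr 1
      have h3 : g * x = x * g := by
        rw [mul_assoc, inv_mul_eq_iff_eq_mul] at h2
        exact h2
      have h4 : g⁻¹ * x = x * g⁻¹ := by
        rw [inv_mul_eq_iff_eq_mul, ← mul_assoc, h3, mul_inv_cancel_right]
      rw [add_mul, mul_add, ← map_mul, ← map_mul, ← map_mul, ← map_mul, h3, h4]
    · congr 1
      have h3 : g * x = x * g⁻¹ := by
        rw [mul_assoc, inv_mul_eq_iff_eq_mul] at h2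
        exact h2
      have h4 : g⁻¹ * x = x * g := by
        rw [inv_mul_eq_iff_eq_mul, ← mul_assoc, h3, inv_mul_cancel_right]
      rw [add_mul, mul_add, ← map_mul, ← map_mul, ← map_mul, ← map_mul, h3, h4, add_comm]
    · have h3 : g⁻¹ = c * g := by
        rw [← h2, inv_eq_iff_mul_eq_one]
        have h4 : g * (g * g * g) = g * g * (g * g) := by group
        rw [h4, h2, hc2]
      have h5 : (MonoidAlgebra.of ℚ G g + MonoidAlgebra.of ℚ G g⁻¹) * (1 - MonoidAlgebra.of ℚ G c) = 0 := by
        rw [h3, map_mul, add_mul, mul_sub, mul_one, of_comm hc (MonoidAlgebra.of ℚ G g), mul_assoc,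
          mul_sub, mul_one, hcc, mul_sub, mul_one]
        abel
      rw [mul_assoc, ← h1, ← mul_assoc, h5, zero_mul, mul_assoc, h5, mul_zero]
  have hK2 : ∀ a b : MonoidAlgebra ℚ G, (a + st a) * ((1 - MonoidAlgebra.of ℚ G c) * b) =
      b * ((a + st a) * (1 - MonoidAlgebra.of ℚ G c)) := by
    intro a b
    induction a using MonoidAlgebra.induction_on with
    | of g =>
      rw [st_of]
      induction b using MonoidAlgebra.induction_on with
      | of x => exact hK g x
      | add x y hx hy => rw [mul_add (1 - MonoidAlgebra.of ℚ G c), mul_add (MonoidAlgebra.of ℚ G g + MonoidAlgebra.of ℚ G g⁻¹), hx, hy, add_mul x y]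
      | smul r x hx => rw [mul_smul_comm, mul_smul_comm, hx, smul_mul_assoc]
    | add x y hx hy =>
      rw [st_add]
      have e : x + y + (st x + st y) = (x + st x) + (y + st y) := by abel
      rw [e, add_mul (x + st x) (y + st y), hx, hy, add_mul (x + st x) (y + st y), mul_add b]
    | smul r x hx =>
      rw [st_smul, ← smul_add, smul_mul_assoc, hx, smul_mul_assoc, mul_smul_comm]
  intro a ha haa
  have ha' : Odd c a := ha
  have hst : Odd c (st a) := by
    rw [odd_iff hc2]
    intro g
    rw [coeff_st, coeff_st, mul_inv_rev, hcinv, ← hc]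
    exact (odd_iff hc2 a).1 ha' g⁻¹
  have hT : Odd c (a + st a) := by
    unfold Odd at *
    rw [mul_add, ha', hst, neg_add]
  -- `T = a + st a` commutes with `a`
  have h1 : (a + st a) * a = a * (a + st a) := by
    have h2 := hK2 a a
    have h3 : (1 - MonoidAlgebra.of ℚ G c) * a = (2 : ℚ) • a := by
      rw [sub_mul, one_mul, ha, sub_neg_eq_add, two_smul]
    have h4 : (a + st a) * (1 - MonoidAlgebra.of ℚ G c) = (2 : ℚ) • (a + st a) := by
      rw [mul_sub, mul_one, hT.right hc, sub_neg_eq_add, two_smul]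
    rw [h3, h4, mul_smul_comm, mul_smul_comm] at h2
    exact smul_right_injective _ (two_ne_zero' ℚ) h2
  have h2 : st a * a = a * st a := by
    rw [add_mul, mul_add, haa, zero_add, zero_add] at h1
    exact h1
  -- `N = a * st a` has square zero and is symmetric
  have h3 : (a * st a) * (a * st a) = 0 := by
    calc (a * st a) * (a * st a) = a * (st a * a) * st a := by simp only [mul_assoc]
      _ = (a * a) * (st a * st a) := by rw [h2]; simp only [mul_assoc]
      _ = 0 := by rw [haa, zero_mul]
  have h4 : st (a * st a) = a * st a := by rw [st_mul, st_st]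
  refine eq_zero_of_mul_st (eq_zero_of_mul_st ?_)
  rw [h4, h3]

/-- Commutative groups. -/
theorem oddReduced_of_comm [Finite G] (hcomm : ∀ a b : G, a * b = b * a) (hc2 : c * c = 1) :
    OddReduced G c :=
  oddReduced_of_conj (fun g => hcomm c g) hc2 fun g x => Or.inl (by
    rw [hcomm x⁻¹ g, inv_mul_cancel_right])

theorem oddReduced_of_equiv {G' : Type} [Group G'] [Finite G] (e : G ≃* G') {c' : G'}
    (hr : OddReduced G (e.symm c')) : OddReduced G' c' := by
  have h1 := oddReduced_quotient (e : G →* G') e.surjective hr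
  have h2 : (e : G →* G') (e.symm c') = c' := e.apply_symm_apply c'
  rwa [h2] at h1

/-- Dicyclic (generalized quaternion) groups. -/
theorem oddReduced_quaternion {n : ℕ} [NeZero n] {c : QuaternionGroup n} (hc2 : c * c = 1)
    (hc1 : c ≠ 1) : OddReduced (QuaternionGroup n) c := by
  classical
  have hn0 : n ≠ 0 := NeZero.ne n
  have hc' : c = QuaternionGroup.a n := by
    rcases c with i | i
    · rw [QuaternionGroup.a_mul_a, ← QuaternionGroup.a_zero, QuaternionGroup.a.injEq] at hc2
      rw [← QuaternionGroup.a_zero, ne_eq, QuaternionGroup.a.injEq] at hc1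
      rw [QuaternionGroup.a.injEq]
      have : NeZero (2 * n) := ⟨by omega⟩
      have h1 : i.val < 2 * n := ZMod.val_lt i
      have h2 : ((2 * i.val : ℕ) : ZMod (2 * n)) = 0 := by
        rw [← hc2]
        push_cast
        rw [ZMod.natCast_val, ZMod.cast_id]
        ring
      rw [ZMod.natCast_eq_zero_iff] at h2
      have h3 : i.val ≠ 0 := by
        intro h
        exact hc1 ((ZMod.val_eq_zero i).1 h)
      obtain ⟨k, hk⟩ := h2
      have h4 : k < 2 := by
        by_contra h5
        have h6 : 2 ≤ k := not_lt.1 h5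
        nlinarith
      have h5 : k ≠ 0 := by
        rintro rfl
        omega
      have h6 : k = 1 := by omega
      rw [h6] at hk
      have h7 : i.val = n := by omega
      have h8 : ((i.val : ℕ) : ZMod (2 * n)) = i := by rw [ZMod.natCast_val, ZMod.cast_id]
      rw [← h8]
      exact congrArg _ h7
    · exfalso
      have h1 : orderOf (QuaternionGroup.xa i : QuaternionGroup n) = 4 :=
        QuaternionGroup.orderOf_xa i
      have h2 : orderOf (QuaternionGroup.xa i : QuaternionGroup n) ∣ 2 :=
        orderOf_dvd_of_pow_eq_one (by rw [sq]; exact hc2)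
      rw [h1] at h2
      omega
  have h2n : (2 * n : ZMod (2 * n)) = 0 := by
    have := ZMod.natCast_self (2 * n)
    push_cast at this
    exact this
  have hnn : (n : ZMod (2 * n)) = -(n : ZMod (2 * n)) := by
    rw [eq_neg_iff_add_eq_zero, ← two_mul]
    exact h2n
  subst hc'
  refine oddReduced_of_conj ?_ hc2 ?_
  · rintro (i | i)
    · rw [QuaternionGroup.a_mul_a, QuaternionGroup.a_mul_a, add_comm]
    · rw [QuaternionGroup.a_mul_xa, QuaternionGroup.xa_mul_a]
      congr 1
      rw [sub_eq_add_neg, ← hnn]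
  · rintro (i | i) (k | k)
    · left
      rw [mul_assoc, inv_mul_eq_iff_eq_mul, QuaternionGroup.a_mul_a, QuaternionGroup.a_mul_a,
        add_comm]
    · right; left
      rw [mul_assoc, inv_mul_eq_iff_eq_mul, QuaternionGroup.a_mul_xa]
      have h1 : (QuaternionGroup.a i : QuaternionGroup n)⁻¹ = QuaternionGroup.a (-i) := rfl
      rw [h1, QuaternionGroup.xa_mul_a, sub_eq_add_neg]
    · right; right
      rw [QuaternionGroup.xa_mul_xa]
      congr 1
      ring
    · right; right
      rw [QuaternionGroup.xa_mul_xa]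
      congr 1
      ring

end groups

section subfields

variable {L : Type} [Field L] [NumberField L] [IsCMField L] [IsGalois ℚ L]
  {E : Type} [Field E] [NumberField E] [IsCMField E]

/-- CM subfields of reduced Galois CM fields are Galois and reduced. -/
theorem reducedField_of_embedding (hL : OddReduced (L ≃ₐ[ℚ] L) (cc L)) (φ : E →+* L) :
    ReducedField E := by
  obtain ⟨j⟩ : Nonempty (L →+* ℂ) := inferInstance
  let φ' : E →ₐ[ℚ] L := RingHom.equivRatAlgHom E L φ
  have hφ' : ∀ x, φ' x = φ x := fun x => rfl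
  let F : IntermediateField ℚ L := φ'.fieldRange
  have hcF : cc L ∉ F.fixingSubgroup := by
    intro h
    apply IsCMField.complexConj_ne_one E
    ext x
    apply φ.injective
    have h1 : cc L (φ x) = φ x := (IntermediateField.mem_fixingSubgroup_iff F (cc L)).1 h (φ x)
      ⟨x, rfl⟩
    apply j.injective
    have h2 : (j.comp φ) (cc E x) = starRingEnd ℂ ((j.comp φ) x) :=
      IsCMField.complexEmbedding_complexConj E (j.comp φ) x
    have h3 := emb_cc j (φ x)
    rw [h1] at h3
    change j (φ (cc E x)) = j (φ x)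
    rw [h3]
    exact h2
  have hN : F.fixingSubgroup.Normal :=
    normal_of_reduced (fun g => cc_comm j g) cc_cc hL _ hcF
  have hF : IsGalois ℚ F := (InfiniteGalois.normal_iff_isGalois F).1 hN
  have hE : IsGalois ℚ E := by
    exact (AlgEquiv.transfer_galois φ'.equivFieldRange).2 hF
  obtain ⟨π, hπ, -, hπc⟩ := exists_res (L := L) (E := E) j φ
  refine ⟨hE, ?_⟩
  rw [← hπc]
  exact oddReduced_quotient π hπ hL

end subfields

end Pool.Agent.W2helper73.EX
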