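import Pool.Agent.W2helper73.EX.Int
import Pool.Agent.W527.PerDefs

/-!
# De Rham-Betti classes are Hodge classes for Galois CM fields with reduced odd group algebra
-/

namespace Pool.Agent.W2helper73.EX

open NumberField Pool.Agent.H204R3.CM Pool.Agent.W547.KB Pool.Agent.W537.PC Equiv Module
  Pool.Agent.W527.Per Pool.Agent.W527.Struct

section fibres

variable {G H : Type} [Group G] [Fintype G] [Group H] [Fintype H]

open Classical in
/-- The sum over the fibres. -/
noncomputable def fib (π : G →* H) (B : G → ℤ) (h : H) : ℤ := ∑ g : G, if π g = h then B g else 0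

theorem small_of_fib (π : G →* H) (hπ : Function.Surjective π) {c : G} {B : G → ℤ}
    (hs : Small (π c) (fib π B)) : Small c B := by
  classical
  obtain ⟨n, N, h, hN, h0, hval, hodd, hrel⟩ := hs
  refine ⟨fun u => n (π u), N, fun g => h (π g), hN, ?_, fun g => hval _, fun g => ?_,
    fun g => ?_⟩
  · intro h1
    apply h0
    funext x
    obtain ⟨g, rfl⟩ := hπ x
    exact congrFun h1 g
  · change h (π (c * g)) = _
    rw [map_mul, hodd]
  · change _ = N * h (π g)
    rw [← hrel (π g)]
    unfold fib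
    simp only [Finset.mul_sum]
    rw [Finset.sum_comm]
    have h1 : ∑ u, n (π u) * B (g * u) = ∑ x, n (π (g⁻¹ * x)) * B x := by
      refine Fintype.sum_equiv (Equiv.mulLeft g) _ _ fun u => ?_
      rw [Equiv.coe_mulLeft, inv_mul_cancel_left]
    rw [h1]
    refine Finset.sum_congr rfl fun x _ => ?_
    rw [Finset.sum_eq_single_of_mem (π (g⁻¹ * x)) (Finset.mem_univ _)]
    · rw [if_pos (by rw [map_mul, map_inv, mul_inv_cancel_left])]
    · intro v _ hv
      rw [if_neg, mul_zero]
      intro h2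
      apply hv
      rw [map_mul, map_inv, h2, inv_mul_cancel_left]

end fibres

theorem exists_fib_ne_zero {G : Type} [Group G] [Fintype G] {κ : Type} [Fintype κ]
    (H : κ → Type) [∀ k, Group (H k)] [∀ k, Fintype (H k)] (π : ∀ k, G →* H k)
    (b : ∀ k, H k → ℤ) (B : G → ℤ) (hB : ∀ g, B g = ∑ k, b k (π k g)) (h0 : B ≠ 0) :
    ∃ k, fib (π k) B ≠ 0 := by
  classical
  by_contra hcon
  push Not at hcon
  apply h0
  have h1 : ∑ g, B g * B g = 0 := by
    have h2 : ∑ g, B g * B g = ∑ g, ∑ k, B g * b k (π k g) := by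
      refine Finset.sum_congr rfl fun g _ => ?_
      rw [← Finset.mul_sum, ← hB]
    rw [h2, Finset.sum_comm]
    refine Finset.sum_eq_zero fun k _ => ?_
    have h3 : ∑ g, B g * b k (π k g) = ∑ h, fib (π k) B h * b k h := by
      unfold fib
      simp only [Finset.sum_mul]
      rw [Finset.sum_comm]
      refine Finset.sum_congr rfl fun g _ => ?_
      rw [Finset.sum_eq_single_of_mem (π k g) (Finset.mem_univ _), if_pos rfl]
      intro v _ hv
      rw [if_neg (Ne.symm hv), zero_mul]
    rw [h3, hcon k]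
    simp
  funext g
  have h2 := (Finset.sum_eq_zero_iff_of_nonneg (fun g _ => mul_self_nonneg (B g))).1 h1 g
    (Finset.mem_univ g)
  exact mul_self_eq_zero.1 h2

section restriction

variable {L : Type} [Field L] [NumberField L] [IsCMField L] [IsGalois ℚ L]
  {E : Type} [Field E] [NumberField E] [IsCMField E] [IsGalois ℚ E]

theorem exists_res (j : L →+* ℂ) (φ : E →+* L) : ∃ π : (L ≃ₐ[ℚ] L) →* (E ≃ₐ[ℚ] E),
    Function.Surjective π ∧ (∀ σ x, σ (φ x) = φ (π σ x)) ∧ π (cc L) = cc E := by
  let _ : Algebra E L := φ.toAlgebra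
  have hst : IsScalarTower ℚ E L := inferInstance
  have hn : Normal ℚ E := inferInstance
  refine ⟨AlgEquiv.restrictNormalHom E, AlgEquiv.restrictNormalHom_surjective L, ?_, ?_⟩
  · intro σ x
    exact (AlgEquiv.restrictNormal_commutes σ E x).symm
  · ext x
    apply φ.injective
    have h1 : φ (AlgEquiv.restrictNormalHom E (cc L) x) = cc L (φ x) :=
      AlgEquiv.restrictNormal_commutes (cc L) E x
    rw [h1]
    apply j.injective
    rw [emb_cc]
    exact (emb_cc (j.comp φ) x).symm

end restriction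

/-- The CM field `E` is Galois over `ℚ` and its odd group algebra has no nilpotent elements. -/
def ReducedField (E : Type) [Field E] [NumberField E] [IsCMField E] : Prop :=
  IsGalois ℚ E ∧ OddReduced (E ≃ₐ[ℚ] E) (cc E)

theorem small_word {L : Type} [Field L] [NumberField L] [IsCMField L] [IsGalois ℚ L]
    (j : L →+* ℂ) {κ : Type} [Fintype κ] (x : κ → Letter L)
    (hx : ∀ k, ReducedField (x k).B.E)
    (h0 : (fun σ : L ≃ₐ[ℚ] L => ∑ k, (x k).s j σ) ≠ 0) :
    Small (cc L) (fun σ : L ≃ₐ[ℚ] L => ∑ k, (x k).s j σ) := by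
  classical
  have hG : ∀ k, IsGalois ℚ (x k).B.E := fun k => (hx k).1
  choose π hπ hπ' hπc using fun k => exists_res (L := L) (E := (x k).B.E) j (x k).φ
  let b : ∀ k, ((x k).B.E ≃ₐ[ℚ] (x k).B.E) → ℤ := fun k τ =>
    if (j.comp (x k).φ).comp (τ : (x k).B.E →+* (x k).B.E) ∈ (x k).B.Φ then 1 else -1
  have hb : ∀ k σ, (x k).s j σ = b k (π k σ) := by
    intro k σ
    have h1 : j.comp (σ • (x k).φ) =
        (j.comp (x k).φ).comp ((π k σ : (x k).B.E ≃ₐ[ℚ] (x k).B.E) : (x k).B.E →+* (x k).B.E) := by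
      ext y
      exact congrArg j (hπ' k σ y)
    unfold Letter.s
    simp only [b]
    rw [h1]
  obtain ⟨k, hk⟩ := exists_fib_ne_zero (fun k => (x k).B.E ≃ₐ[ℚ] (x k).B.E) π b _
    (fun σ => Finset.sum_congr rfl fun k _ => hb k σ) h0
  refine small_of_fib (π k) (hπ k) ?_
  rw [hπc k]
  refine small_of_reduced (fun g => cc_comm (j.comp (x k).φ) g) cc_cc (hx k).2 _ ?_ hk
  intro h
  unfold fib
  rw [← Finset.sum_neg_distrib]
  refine (Fintype.sum_equiv (Equiv.mulLeft (cc L)) _ _ fun g => ?_).symm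
  rw [Equiv.coe_mulLeft, map_mul, hπc k]
  have h1 : ∑ k, (x k).s j (cc L * g) = - ∑ k, (x k).s j g := by
    rw [← Finset.sum_neg_distrib]
    exact Finset.sum_congr rfl fun k _ => Letter.s_cc j g (x k)
  by_cases h2 : π k g = h
  · rw [if_pos h2, if_pos (by rw [h2])]
    exact h1.symm
  · rw [if_neg h2, if_neg (fun h3 => h2 (mul_left_cancel h3)), neg_zero]

/-- **De Rham-Betti classes on products of abelian varieties with complex multiplication by Galois
CM fields with reduced odd group algebras are Hodge classes.** -/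
theorem hodge_of_reduced (P : PeriodSystem) (hB : P.Bost) (hD : P.Deligne) (X : CMAV)
    (hX : ∀ i, ReducedField (X.factor i).E) (k : ℕ) (f : X.H1 [⋀^Fin (2 * k)]→ₗ[ℚ] ℚ)
    (hf : P.IsDRB X k f) : IsHodge X.per f := by
  rcases isEmpty_or_nonempty (Fin (2 * k)) with hκ | ⟨⟨k0⟩⟩
  · exact hodge_unit f
  rcases isEmpty_or_nonempty X.I with hI | hI
  · have h1 : f = 0 := by
      ext v
      have h2 : v k0 = 0 := by
        funext i
        exact (hI.false i).elim
      rw [f.map_coord_zero k0 h2]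
      rfl
    rw [h1]
    exact hodge_zero X _
  obtain ⟨L, _, _, _, _, j, hj, hgen⟩ := exists_cm' X
  exact hodge_of_drb_small j P hB hD X hj k (fun I h0 =>
    small_word j (fun l => (⟨X.factor (I l).1, (I l).2⟩ : Letter L)) (fun l => hX _) h0) f hf

theorem allHodge_of_reduced (P : PeriodSystem) (hB : P.Bost) (hD : P.Deligne) {ι : Type}
    (A : ι → CMPair) (hA : ∀ i, ReducedField (A i).E) : AllHodge P A :=
  fun _ _ t k f hf => hodge_of_reduced P hB hD (productOf A t) (fun a => hA (t a)) k f hf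

end Pool.Agent.W2helper73.EX
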