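import Pool.Agent.W2helper73.EX.Del
import Pool.Agent.W2helper73.EX.Pos

/-!
# Exotic period systems
-/

set_option linter.unusedSectionVars false

namespace Pool.Agent.W2helper73.EX

open NumberField Pool.Agent.H204R3.CM Pool.Agent.W547.KB Pool.Agent.W537.PC Module
  Pool.Agent.W527 Pool.Agent.W527.Vec

/-- Independence of the periods over a subfield `K` of the field of complex numbers.

* If no two of the finitely many embeddings `φ i` of the fields of the CM types `B i` are moved into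
  the CM types by the same automorphisms of the complex numbers, then `1` and the periods
  `θ (B i) (φ i)` are linearly independent over `K`.
* All periods `θ B φ` are transcendental over `K`. -/
def IndependentOver (K : Subfield ℂ) (P : PeriodSystem) : Prop :=
  (∀ (n : ℕ) (B : Fin n → CMPair) (φ : ∀ i, (B i).E →+* ℂ),
    (∀ i i', i ≠ i' → ∃ τ : ℂ ≃+* ℂ,
      ¬ ((τ : ℂ →+* ℂ).comp (φ i) ∈ (B i).Φ ↔ (τ : ℂ →+* ℂ).comp (φ i') ∈ (B i').Φ)) →
    ∀ (a₀ : K) (a : Fin n → K), (a₀ : ℂ) + ∑ i, (a i : ℂ) * P.θ (B i) (φ i) = 0 →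
      a₀ = 0 ∧ ∀ i, a i = 0) ∧
  ∀ (B : CMPair) (φ : B.E →+* ℂ), Transcendental K (P.θ B φ)

noncomputable section

theorem tf_mem (B : CMPair) (φ : B.E →+* ℂ) : tf B φ ∈ Submodule.span ℚ allTf :=
  Submodule.subset_span ⟨B, φ, rfl⟩

theorem lifts_unique {L : Type} [Field L] [NumberField L] (j : L →+* ℂ) {τ : ℂ ≃+* ℂ}
    {g g' : L ≃ₐ[ℚ] L} (h : Lifts j τ g) (h' : Lifts j τ g') : g = g' := by
  ext x
  apply j.injective
  rw [← h x, ← h' x]

variable {L : Type} [Field L] [NumberField L] [IsCMField L] [IsGalois ℚ L] (j : L →+* ℂ)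

/-- The restriction of an automorphism of the complex numbers. -/
def res (τ : ℂ ≃+* ℂ) : L ≃ₐ[ℚ] L := (exists_lift j τ).choose

theorem res_spec (τ : ℂ ≃+* ℂ) : Lifts j τ (res j τ) := (exists_lift j τ).choose_spec

theorem res_surj (g : L ≃ₐ[ℚ] L) : ∃ τ, res j τ = g := by
  obtain ⟨τ, hτ⟩ := exists_lift' j g
  exact ⟨τ, lifts_unique j (res_spec j τ) hτ⟩

/-- The space of functions generated by the translates of `B`. -/
def JJ (B : (L ≃ₐ[ℚ] L) → ℤ) : Submodule ℚ ((ℂ ≃+* ℂ) → ℚ) :=
  Submodule.span ℚ (Set.range fun (σ : L ≃ₐ[ℚ] L) (τ : ℂ ≃+* ℂ) => (B (res j τ * σ) : ℚ))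

/-- Functions in the space `JJ B` with the values `0`, `2`, `-2` are zero if `B` is not small. -/
theorem eq_zero_of_mem {B : (L ≃ₐ[ℚ] L) → ℤ} (hodd : ∀ g, B (cc L * g) = -B g)
    (hB : ¬ Small (cc L) B) {F : (ℂ ≃+* ℂ) → ℚ} (hF : F ∈ JJ j B)
    (hval : ∀ τ, F τ = 0 ∨ F τ = 2 ∨ F τ = -2) : F = 0 := by
  classical
  by_contra hne
  apply hB
  obtain ⟨q, hq⟩ := (Submodule.mem_span_range_iff_exists_fun ℚ).1 hF
  have h1 : ∀ τ, (toR (fun g => (B g : ℚ)) * toR (fun u : L ≃ₐ[ℚ] L => q u⁻¹ / 2)).coeff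
      (res j τ) = F τ / 2 := by
    intro τ
    rw [coeff_mul_sum', ← hq, Finset.sum_apply, Finset.sum_div]
    refine Fintype.sum_equiv (Equiv.inv _) _ _ fun u => ?_
    rw [Equiv.inv_apply, coeff_toR, coeff_toR, Pi.smul_apply, smul_eq_mul]
    ring
  refine small_of_mul cc_cc B hodd (y := toR (fun u : L ≃ₐ[ℚ] L => q u⁻¹ / 2)) ?_ ?_
  · intro h0
    apply hne
    funext τ
    have h2 := h1 τ
    rw [h0] at h2
    have h3 : F τ / 2 = 0 := h2.symm
    have h4 : F τ = 0 := by linarith
    exact h4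
  · intro g
    obtain ⟨τ, rfl⟩ := res_surj j g
    rw [h1]
    rcases hval τ with h | h | h
    · left; rw [h]; norm_num
    · right; left; rw [h]; norm_num
    · right; right; rw [h]; norm_num

theorem tf_not_mem {B : (L ≃ₐ[ℚ] L) → ℤ} (hodd : ∀ g, B (cc L * g) = -B g)
    (hB : ¬ Small (cc L) B) (A : CMPair) (φ : A.E →+* ℂ) {q : ℚ} (hq : q ≠ 0) :
    q • tf A φ ∉ JJ j B := by
  intro h
  have h1 : (2 : ℚ) • tf A φ ∈ JJ j B := by
    have h2 := Submodule.smul_mem (JJ j B) (2 * q⁻¹) h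
    rwa [smul_smul, mul_assoc, inv_mul_cancel₀ hq, mul_one] at h2
  have h2 := eq_zero_of_mem j hodd hB h1 (by
    intro τ
    rw [Pi.smul_apply, smul_eq_mul]
    rcases tf_cases A φ τ with h | h <;> rw [h] <;> norm_num)
  have h3 := congrFun h2 1
  rw [Pi.smul_apply, smul_eq_mul, Pi.zero_apply] at h3
  rcases tf_cases A φ 1 with h | h <;> rw [h] at h3 <;> norm_num at h3

section model

variable {B : (L ≃ₐ[ℚ] L) → ℤ} {l : ((ℂ ≃+* ℂ) → ℚ) →ₗ[ℚ] ℂ} {C : Set ℂ}
  (hl : ∀ v ∈ JJ j B, l v = 0)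
  (hl' : ∀ (n : ℕ) (v : Fin n → ((ℂ ≃+* ℂ) → ℚ)), (∀ i, v i ∈ Submodule.span ℚ allTf) →
        (∀ i i', i ≠ i' → v i - v i' ∉ JJ j B) → ∀ a : Fin n → ℂ, (∀ i, a i ∈ C) →
          ∑ i, a i * Complex.exp (l (v i)) = 0 → ∀ i, a i = 0)
  (hCalg : ∀ x ∈ algebraicClosure ℚ ℂ, x ∈ C)

include hl' hCalg in
theorem mem_of_alg {v : (ℂ ≃+* ℂ) → ℚ} (hv : v ∈ Submodule.span ℚ allTf)
    (h : Complex.exp (l v) ∈ algebraicClosure ℚ ℂ) : v ∈ JJ j B := by
  by_contra hne
  have h1 := hl' 2 ![0, v] (by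
    intro i
    fin_cases i
    · exact Submodule.zero_mem _
    · exact hv) (by
    intro i i' hii
    fin_cases i <;> fin_cases i'
    · exact absurd rfl hii
    · change (0 : (ℂ ≃+* ℂ) → ℚ) - v ∉ _
      rw [zero_sub]
      exact fun h2 => hne (by simpa using Submodule.neg_mem _ h2)
    · change v - (0 : (ℂ ≃+* ℂ) → ℚ) ∉ _
      rw [sub_zero]
      exact hne
    · exact absurd rfl hii) ![Complex.exp (l v), -1] (by
    intro i
    fin_cases i
    · exact hCalg _ h
    · exact hCalg _ (neg_mem (one_mem _))) (by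
    rw [Fin.sum_univ_two]
    change Complex.exp (l v) * Complex.exp (l 0) + -1 * Complex.exp (l v) = 0
    rw [map_zero, Complex.exp_zero]
    ring) 1
  exact one_ne_zero (neg_eq_zero.1 h1)

include hl' hCalg in
theorem bost_model (hodd : ∀ g, B (cc L * g) = -B g) (hB : ¬ Small (cc L) B) :
    (sysOf l).Bost := by
  classical
  intro X f hf
  rcases isEmpty_or_nonempty X.I with hI | hI
  · have h1 : f = 0 := by
      ext v
      have h2 : v 0 = 0 := by
        funext i
        exact (hI.false i).elim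
      rw [f.map_coord_zero 0 h2]
      rfl
    rw [h1]
    exact hodge_zero X _
  obtain ⟨M, _, _, _, _, jM, hjM, -⟩ := exists_cm' X
  refine hodge_of_drb_alg jM (sysOf l) X hjM 1 ?_ f hf
  intro I hIper σ
  have h1 := hIper 1
  set x : Fin (2 * 1) → Letter M := fun k => ⟨X.factor (I k).1, (I k).2⟩ with hx
  have hact : ∀ k, (x k).act (1 : M ≃ₐ[ℚ] M) = x k := by
    intro k
    change (⟨(x k).B, (1 : M ≃ₐ[ℚ] M) • (x k).φ⟩ : Letter M) = x k
    rw [one_smul]
  have h2 : ∑ k, WL jM (sysOf l) (x k) = 0 := by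
    rw [← h1]
    refine Finset.sum_congr rfl fun k _ => ?_
    rw [← hact k]
  have h3 : (∏ k, (sysOf l).rl jM (x k)) ∈ algebraicClosure ℚ ℂ := by
    have h4 : (∏ k, (sysOf l).rl jM (x k)) ≠ 0 :=
      Finset.prod_ne_zero_iff.2 fun k _ => (sysOf l).rl_ne jM _
    rw [← lg_eq_zero h4, lg_prod _ _ (fun k _ => (sysOf l).rl_ne jM _)]
    exact h2
  have h4 : ((∏ k, (sysOf l).θ (x k).B (jM.comp (x k).φ)) /
      (2 * Real.pi * Complex.I) ^ 1) ^ 2 ∈ algebraicClosure ℚ ℂ := by
    have h5 : ((∏ k, (sysOf l).θ (x k).B (jM.comp (x k).φ)) / (2 * Real.pi * Complex.I) ^ 1) ^ 2 =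
        ∏ k, (sysOf l).rl jM (x k) := by
      unfold PeriodSystem.rl PeriodSystem.tl
      rw [Finset.prod_div_distrib, Finset.prod_pow, div_pow, Finset.prod_const,
        Finset.card_univ, Fintype.card_fin, ← pow_mul, mul_comm 1 2]
    rwa [h5]
  have h5 : (∏ k, (sysOf l).θ (x k).B (jM.comp (x k).φ)) /
      (2 * Real.pi * Complex.I) ^ 1 ∈ algebraicClosure ℚ ℂ :=
    mem_algebraicClosure_iff.2 (IsAlgebraic.of_pow two_pos (mem_algebraicClosure_iff.1 h4))
  rw [prod_sysOf l (fun k => (x k).B) (fun k => jM.comp (x k).φ)] at h5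
  have h6 := mem_of_alg j hl' hCalg (Submodule.sum_mem _ fun k _ => tf_mem _ _) h5
  have h7 := eq_zero_of_mem j hodd hB h6 (by
    intro τ
    rw [Finset.sum_apply, Fin.sum_univ_two]
    rcases tf_cases (x 0).B (jM.comp (x 0).φ) τ with h | h <;>
      rcases tf_cases (x 1).B (jM.comp (x 1).φ) τ with h' | h' <;> rw [h, h'] <;> norm_num)
  obtain ⟨τ, hτ⟩ := exists_lift' jM σ
  have h8 := congrFun h7 τ
  rw [Finset.sum_apply] at h8
  have h9 : ((∑ k, (x k).s jM σ : ℤ) : ℚ) = 0 := by
    rw [Int.cast_sum, ← Finset.sum_congr rfl (fun k _ => tf_of_lifts jM (x k) hτ)]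
    exact h8
  exact_mod_cast h9

include hl' in
theorem independent_model (hodd : ∀ g, B (cc L * g) = -B g) (hB : ¬ Small (cc L) B)
    {K : Subfield ℂ}
    (hK : ∀ (x : K) (i : ℕ), (x : ℂ) * Complex.exp (Complex.log (2 * Real.pi * Complex.I) / 2) ^ i ∈
      C) : IndependentOver K (sysOf l) := by
  classical
  set s : ℂ := Complex.exp (Complex.log (2 * Real.pi * Complex.I) / 2) with hs
  have hs0 : s ≠ 0 := Complex.exp_ne_zero _
  have hθ : ∀ (A : CMPair) (φ : A.E →+* ℂ), (sysOf l).θ A φ = s * Complex.exp (l (tf A φ)) := by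
    intro A φ
    rw [hs, ← Complex.exp_add]
    rfl
  constructor
  · intro n Bs φ hd a₀ a ha
    have h1 := hl' (n + 1) (Fin.cons 0 fun i => tf (Bs i) (φ i)) (by
      intro i
      refine Fin.cases ?_ (fun i => ?_) i
      · exact Submodule.zero_mem _
      · exact tf_mem _ _) (by
      intro i i'
      refine Fin.cases ?_ (fun i => ?_) i <;> refine Fin.cases ?_ (fun i' => ?_) i'
      · intro h
        exact absurd rfl h
      · intro _ h
        rw [Fin.cons_zero, Fin.cons_succ, zero_sub] at h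
        refine tf_not_mem j hodd hB (Bs i') (φ i') (q := -1) (by norm_num) ?_
        rwa [neg_smul, one_smul]
      · intro _ h
        rw [Fin.cons_zero, Fin.cons_succ, sub_zero] at h
        refine tf_not_mem j hodd hB (Bs i) (φ i) (q := 1) (by norm_num) ?_
        rwa [one_smul]
      · intro hii hmem
        rw [Fin.cons_succ, Fin.cons_succ] at hmem
        obtain ⟨τ, hτ⟩ := hd i i' fun h => hii (by rw [h])
        have h2 := eq_zero_of_mem j hodd hB hmem (by
          intro τ
          rw [Pi.sub_apply]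
          rcases tf_cases (Bs i) (φ i) τ with h | h <;>
            rcases tf_cases (Bs i') (φ i') τ with h' | h' <;> rw [h, h'] <;> norm_num)
        apply hτ
        have h3 := congrFun h2 τ
        rw [Pi.sub_apply, Pi.zero_apply, sub_eq_zero] at h3
        unfold tf at h3
        by_cases h4 : (τ : ℂ →+* ℂ).comp (φ i) ∈ (Bs i).Φ <;>
          by_cases h5 : (τ : ℂ →+* ℂ).comp (φ i') ∈ (Bs i').Φ
        · exact ⟨fun _ => h5, fun _ => h4⟩
        · rw [if_pos h4, if_neg h5] at h3
          norm_num at h3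
        · rw [if_neg h4, if_pos h5] at h3
          norm_num at h3
        · exact ⟨fun h => absurd h h4, fun h => absurd h h5⟩)
      (Fin.cons (a₀ : ℂ) fun i => (a i : ℂ) * s) (by
        intro i
        refine Fin.cases ?_ (fun i => ?_) i
        · rw [Fin.cons_zero]
          have h2 := hK a₀ 0
          rwa [pow_zero, mul_one] at h2
        · rw [Fin.cons_succ]
          have h2 := hK (a i) 1
          rwa [pow_one] at h2) (by
        rw [Fin.sum_univ_succ]
        simp only [Fin.cons_zero, Fin.cons_succ, map_zero, Complex.exp_zero, mul_one]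
        rw [← ha]
        congr 1
        refine Finset.sum_congr rfl fun i _ => ?_
        rw [hθ, mul_assoc])
    constructor
    · have h2 := h1 0
      rw [Fin.cons_zero] at h2
      exact Subtype.ext h2
    · intro i
      have h2 := h1 i.succ
      rw [Fin.cons_succ] at h2
      exact Subtype.ext ((mul_eq_zero.1 h2).resolve_right hs0)
  · intro A φ
    rw [transcendental_iff]
    intro p hp
    have h1 := hl' (p.natDegree + 1) (fun i => ((i : ℕ) : ℚ) • tf A φ)
      (fun i => Submodule.smul_mem _ _ (tf_mem _ _)) (by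
      intro i i' hii h
      rw [← sub_smul] at h
      refine tf_not_mem j hodd hB A φ (q := ((i : ℕ) : ℚ) - ((i' : ℕ) : ℚ)) ?_ h
      rw [sub_ne_zero]
      intro h2
      exact hii (Fin.ext (by exact_mod_cast h2)))
      (fun i => (p.coeff i : ℂ) * s ^ (i : ℕ)) (fun i => hK _ _) (by
      rw [Polynomial.aeval_eq_sum_range, Finset.sum_range] at hp
      rw [← hp]
      refine Finset.sum_congr rfl fun i _ => ?_
      have h2 : (((i : ℕ) : ℚ) • l (tf A φ)) = ((i : ℕ) : ℂ) * l (tf A φ) := by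
        rw [Rat.smul_def]
        push_cast
        rfl
      rw [hθ, map_smul, mul_pow, h2, Complex.exp_nat_mul (l (tf A φ)) i, mul_assoc]
      rfl)
    ext i
    rw [Polynomial.coeff_zero]
    by_cases hi : i < p.natDegree + 1
    · have h2 := h1 ⟨i, hi⟩
      exact (mul_eq_zero.1 h2).resolve_right (pow_ne_zero _ hs0)
    · rw [Polynomial.coeff_eq_zero_of_natDegree_lt (by omega)]

include hl in
/-- The traces of the words whose types are multiples of `B` are de Rham-Betti classes. -/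
theorem drb_model {m : ℕ} (w : Fin (2 * m) → Letter L) (N : ℤ)
    (hw : ∀ σ, ∑ k, (w k).s j σ = N * B σ) :
    (sysOf l).IsDRB (wordX w) m (trForm 1 (wordI w)) := by
  refine drb_trForm j (sysOf l) w fun σ => ?_
  have h1 := prod_sysOf l (fun k => (w k).B) (fun k => j.comp (σ • (w k).φ))
  have h2 : (∑ k, tf (w k).B (j.comp (σ • (w k).φ))) ∈ JJ j B := by
    have h3 : (∑ k, tf (w k).B (j.comp (σ • (w k).φ))) =
        (N : ℚ) • (fun τ : ℂ ≃+* ℂ => (B (res j τ * σ) : ℚ)) := by
      funext τ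
      rw [Finset.sum_apply, Pi.smul_apply, smul_eq_mul]
      have h4 : ∀ k, tf (w k).B (j.comp (σ • (w k).φ)) τ = (((w k).s j (res j τ * σ) : ℤ) : ℚ) := by
        intro k
        rw [← Letter.s_act]
        exact tf_of_lifts j ((w k).act σ) (res_spec j τ)
      rw [Finset.sum_congr rfl (fun k _ => h4 k), ← Int.cast_sum, hw]
      push_cast
      rfl
    rw [h3]
    exact Submodule.smul_mem _ _ (Submodule.subset_span ⟨σ, rfl⟩)
  rw [hl _ h2, Complex.exp_zero] at h1
  have h3 : (∏ k, (sysOf l).tl j ((w k).act σ)) / (2 * Real.pi * Complex.I) ^ m = 1 := h1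
  rw [h3]
  exact one_mem _

end model

/-- **Exotic period systems.** If the odd function `B` on the Galois group of `L` is not small then
for every countable subfield `K` of the field of complex numbers there is a period system which
satisfies the theorems of Bost and Deligne, with independence of the periods over `K`, such that the
traces of all monomials whose types are multiples of `B` are de Rham-Betti classes. -/
theorem exists_exotic (K : Subfield ℂ) (hK : Countable K) {B : (L ≃ₐ[ℚ] L) → ℤ}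
    (hodd : ∀ g, B (cc L * g) = -B g) (hB : ¬ Small (cc L) B) :
    ∃ P : PeriodSystem, P.Bost ∧ P.Deligne ∧ IndependentOver K P ∧
      ∀ (m : ℕ) (w : Fin (2 * m) → Letter L) (N : ℤ), (∀ σ, ∑ k, (w k).s j σ = N * B σ) →
        P.IsDRB (wordX w) m (trForm 1 (wordI w)) := by
  classical
  let C : Set ℂ := {x | IsAlgebraic ℚ x} ∪ Set.range fun p : K × ℕ =>
    (p.1 : ℂ) * Complex.exp (Complex.log (2 * Real.pi * Complex.I) / 2) ^ p.2
  have hC : C.Countable := (Algebraic.countable ℚ ℂ).union (Set.countable_range _)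
  obtain ⟨l, hl, hl'⟩ := exists_lam allTf countable_allTf (JJ j B) C hC
  have hCalg : ∀ x ∈ algebraicClosure ℚ ℂ, x ∈ C := fun x hx =>
    Or.inl (mem_algebraicClosure_iff.1 hx)
  exact ⟨sysOf l, bost_model j hl' hCalg hodd hB, deligne_sysOf l,
    independent_model j hl' hodd hB fun x i => Or.inr ⟨(x, i), rfl⟩,
    fun m w N hw => drb_model j hl w N hw⟩

end

end Pool.Agent.W2helper73.EX
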