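import Pool.Agent.W2helper73.EX.Bad
import Pool.Agent.W537.PC.Gen

/-!
# Integral functions: the criterion of small functions for reduced odd group algebras
-/

namespace Pool.Agent.W2helper73.EX

open Pool.Agent.W537.PC

variable {G : Type} [Group G] {c : G}

/-- A rational function as an element of the group algebra. -/
noncomputable def toR [Finite G] (B : G → ℚ) : MonoidAlgebra ℚ G :=
  MonoidAlgebra.ofCoeff (Finsupp.equivFunOnFinite.symm B)

omit [Group G] in
theorem coeff_toR [Finite G] (B : G → ℚ) (g : G) : (toR B).coeff g = B g := rfl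

theorem odd_iff [Finite G] (hc2 : c * c = 1) (B : MonoidAlgebra ℚ G) :
    Odd c B ↔ ∀ g, B.coeff (c * g) = - B.coeff g := by
  have hcinv : c⁻¹ = c := inv_eq_of_mul_eq_one_left hc2
  constructor
  · intro h g
    have h2 := congrArg (fun a => a.coeff g) h
    change (MonoidAlgebra.of ℚ G c * B).coeff g = (-B).coeff g at h2
    rw [coeff_of_mul, hcinv] at h2
    exact h2
  · intro h
    refine MonoidAlgebra.ext (Finsupp.ext fun g => ?_)
    rw [coeff_of_mul, hcinv, h]
    rfl

theorem exists_den {ι : Type} [Fintype ι] (y : ι → ℚ) :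
    ∃ (N : ℕ) (m : ι → ℤ), 0 < N ∧ ∀ i, (m i : ℚ) = N * y i := by
  classical
  refine ⟨∏ i, (y i).den, fun i => (∏ k ∈ Finset.univ.erase i, (y k).den : ℕ) * (y i).num,
    Finset.prod_pos fun i _ => (y i).den_pos, fun i => ?_⟩
  have h1 : ((∏ i, (y i).den : ℕ) : ℚ) = (∏ k ∈ Finset.univ.erase i, (y k).den : ℕ) *
      ((y i).den : ℚ) := by
    rw [← Finset.prod_erase_mul _ _ (Finset.mem_univ i)]
    push_cast
    rfl
  rw [h1]
  have h2 : ((y i).den : ℚ) * y i = (y i).num := by
    rw [mul_comm]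
    exact Rat.mul_den_eq_num (y i)
  push_cast
  rw [mul_assoc, h2]

theorem small_of_mul [Fintype G] (hc2 : c * c = 1) (B : G → ℤ)
    (hB : ∀ g, B (c * g) = - B g) {y : MonoidAlgebra ℚ G}
    (hy0 : toR (fun g => (B g : ℚ)) * y ≠ 0) (hy : SmallC (toR (fun g => (B g : ℚ)) * y)) :
    Small c B := by
  classical
  obtain ⟨N, m, hN, hm⟩ := exists_den (fun g => y.coeff g)
  have hBo : Odd c (toR (fun g => (B g : ℚ))) := by
    rw [odd_iff hc2]
    intro g
    rw [coeff_toR, coeff_toR, hB]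
    push_cast
    rfl
  have hint : ∀ g, ∃ k : ℤ, (toR (fun g => (B g : ℚ)) * y).coeff g = k ∧
      (k = 0 ∨ k = 1 ∨ k = -1) := by
    intro g
    rcases hy g with h | h | h
    · exact ⟨0, by rw [h]; norm_num, Or.inl rfl⟩
    · exact ⟨1, by rw [h]; norm_num, Or.inr (Or.inl rfl)⟩
    · exact ⟨-1, by rw [h]; norm_num, Or.inr (Or.inr rfl)⟩
  choose h hh hh' using hint
  refine ⟨fun u => m u⁻¹, N, h, hN, ?_, hh', ?_, ?_⟩
  · intro h0
    apply hy0
    refine MonoidAlgebra.ext (Finsupp.ext fun g => ?_)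
    rw [hh g, h0]
    norm_num
  · intro g
    have h1 := (odd_iff hc2 _).1 (hBo.mul y) g
    rw [hh, hh] at h1
    exact_mod_cast h1
  · intro g
    have h1 := hh g
    rw [coeff_mul_sum'] at h1
    have h2 : ((∑ u, m u⁻¹ * B (g * u) : ℤ) : ℚ) = N * h g := by
      rw [← h1, Finset.mul_sum]
      push_cast
      refine Fintype.sum_equiv (Equiv.inv G) _ _ fun u => ?_
      rw [Equiv.inv_apply, hm, coeff_toR, inv_inv]
      ring
    exact_mod_cast h2

theorem exists_mul_of_small [Fintype G] (B : G → ℤ) (hs : Small c B) :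
    ∃ y, toR (fun g => (B g : ℚ)) * y ≠ 0 ∧ SmallC (toR (fun g => (B g : ℚ)) * y) := by
  classical
  obtain ⟨n, N, h, hN, h0, hval, -, hrel⟩ := hs
  have hN0 : (N : ℚ) ≠ 0 := by exact_mod_cast hN.ne'
  have key : ∀ g, (toR (fun g => (B g : ℚ)) * toR (fun u => (n u⁻¹ : ℚ) / N)).coeff g = h g := by
    intro g
    rw [coeff_mul_sum']
    have h1 : (∑ u, (n u : ℚ) * B (g * u)) = N * h g := by exact_mod_cast hrel g
    have h2 : (h g : ℚ) = (∑ u, (n u : ℚ) * B (g * u)) / N := by
      rw [h1, mul_div_cancel_left₀ _ hN0]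
    rw [h2, Finset.sum_div]
    refine Fintype.sum_equiv (Equiv.inv G) _ _ fun u => ?_
    rw [Equiv.inv_apply, coeff_toR, coeff_toR]
    ring
  refine ⟨toR (fun u => (n u⁻¹ : ℚ) / N), fun h1 => h0 (funext fun g => ?_), fun g => ?_⟩
  · have h2 := key g
    rw [h1] at h2
    have h3 : (h g : ℚ) = 0 := h2.symm
    exact_mod_cast h3
  · rw [key]
    rcases hval g with h1 | h1 | h1
    · left; rw [h1]; norm_num
    · right; left; rw [h1]; norm_num
    · right; right; rw [h1]; norm_num

/-- **Reduced odd group algebras: all odd functions are small.** -/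
theorem small_of_reduced [Fintype G] (hc : ∀ g : G, c * g = g * c) (hc2 : c * c = 1)
    (hr : OddReduced G c) (B : G → ℤ) (hB : ∀ g, B (c * g) = - B g) (h0 : B ≠ 0) : Small c B := by
  have hBo : Odd c (toR (fun g => (B g : ℚ))) := by
    rw [odd_iff hc2]
    intro g
    rw [coeff_toR, coeff_toR, hB]
    push_cast
    rfl
  obtain ⟨y, hy0, hy⟩ := exists_small_mul (Nat.card G) G c le_rfl hc hc2 hr _ hBo (by
    intro h
    apply h0
    funext g
    have h1 : (B g : ℚ) = 0 := by
      rw [← coeff_toR (fun g => (B g : ℚ)) g, h]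
      rfl
    exact_mod_cast h1)
  exact small_of_mul hc2 B hB hy0 hy

/-- **Odd group algebras with nilpotent elements: some odd function is not small.** -/
theorem exists_not_small [Fintype G] (hc : ∀ g : G, c * g = g * c) (hc2 : c * c = 1)
    (hr : ¬ OddReduced G c) :
    ∃ B : G → ℤ, (∀ g, B (c * g) = - B g) ∧ B ≠ 0 ∧ ¬ Small c B := by
  classical
  obtain ⟨B, hB, hB0, hbad⟩ := exists_bad hc hc2 hr
  obtain ⟨N, m, hN, hm⟩ := exists_den (fun g => B.coeff g)
  have hN0 : (N : ℚ) ≠ 0 := by exact_mod_cast hN.ne'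
  have hmB : toR (fun g => (m g : ℚ)) = (N : ℚ) • B := by
    refine MonoidAlgebra.ext (Finsupp.ext fun g => ?_)
    rw [coeff_toR, hm]
    rfl
  refine ⟨m, ?_, ?_, ?_⟩
  · intro g
    have h1 := (odd_iff hc2 _).1 hB g
    have h2 : (m (c * g) : ℚ) = -(m g : ℚ) := by
      rw [hm, hm, h1]
      ring
    exact_mod_cast h2
  · intro h
    apply hB0
    refine MonoidAlgebra.ext (Finsupp.ext fun g => ?_)
    have h1 := hm g
    rw [h] at h1
    have h2 : (N : ℚ) * B.coeff g = 0 := by
      rw [← h1]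
      norm_num
    exact (mul_eq_zero.1 h2).resolve_left hN0
  · intro hs
    obtain ⟨y, hy0, hy⟩ := exists_mul_of_small m hs
    rw [hmB, smul_mul_assoc, ← mul_smul_comm] at hy0 hy
    exact hbad _ hy0 hy

end Pool.Agent.W2helper73.EX
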