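import Mathlib
import Pool.Agent.W527.VPeriod

/-!
# Linear maps to the complex numbers with linearly independent exponentials
-/

namespace Pool.Agent.W2helper73.EX

open Module Topology Filter

/-- The zeros of a nonzero entire function form a countable set. -/
theorem countable_zeros {F : ℂ → ℂ} (hF : Differentiable ℂ F) (h0 : ∃ z, F z ≠ 0) :
    {z | F z = 0}.Countable := by
  have han : AnalyticOnNhd ℂ F Set.univ := fun z _ => hF.analyticAt z
  refine (HereditarilyLindelofSpace.isLindelof {z | F z = 0}).countable ?_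
  rw [discreteTopology_subtype_iff]
  intro z _
  have h1 : ∀ᶠ w in 𝓝[≠] z, F w ≠ 0 := by
    rcases (hF.analyticAt z).eventually_eq_zero_or_eventually_ne_zero with h | h
    · exfalso
      obtain ⟨w, hw⟩ := h0
      exact hw (han.eqOn_zero_of_preconnected_of_eventuallyEq_zero isPreconnected_univ
        (Set.mem_univ z) h (Set.mem_univ w))
    · exact h
  rw [← disjoint_iff]
  exact Filter.disjoint_principal_right.2 h1

/-- Exponentials with different frequencies are linearly independent. -/
theorem exists_exp_ne_zero {n : ℕ} (γ : Fin n → ℂ) (hγ : Function.Injective γ) (a : Fin n → ℂ)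
    (ha : a ≠ 0) : ∃ z : ℂ, ∑ k, a k * Complex.exp (z * γ k) ≠ 0 := by
  classical
  by_contra hcon
  push Not at hcon
  let χ : Fin n → (Multiplicative ℂ →* ℂ) := fun k =>
    { toFun := fun z => Complex.exp (z.toAdd * γ k)
      map_one' := by rw [toAdd_one, zero_mul, Complex.exp_zero]
      map_mul' := fun z w => by rw [toAdd_mul, add_mul, Complex.exp_add] }
  have hχ : Function.Injective χ := by
    intro k k' h
    apply hγ
    by_contra hne
    have hd : γ k - γ k' ≠ 0 := sub_ne_zero.2 hne
    -- choose `z` with `z * (γ k - γ k') = 1`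
    have h1 := DFunLike.congr_fun h (Multiplicative.ofAdd (1 / (γ k - γ k')))
    change Complex.exp (1 / (γ k - γ k') * γ k) = Complex.exp (1 / (γ k - γ k') * γ k') at h1
    rw [Complex.exp_eq_exp_iff_exp_sub_eq_one] at h1
    have h2 : 1 / (γ k - γ k') * γ k - 1 / (γ k - γ k') * γ k' = 1 := by
      rw [← mul_sub, one_div, inv_mul_cancel₀ hd]
    rw [h2] at h1
    have h3 : Real.exp 1 = 1 := by
      have := congrArg Complex.re h1
      rwa [← Complex.ofReal_one, Complex.exp_ofReal_re, Complex.ofReal_re] at this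
    rw [Real.exp_eq_one_iff] at h3
    exact one_ne_zero h3
  have hli := (linearIndependent_monoidHom (Multiplicative ℂ) ℂ).comp χ hχ
  rw [Fintype.linearIndependent_iff] at hli
  apply ha
  funext k
  refine hli a ?_ k
  funext z
  rw [Finset.sum_apply]
  exact hcon z.toAdd

theorem not_countable_cx : ¬ Countable ℂ := fun h =>
  not_countable_complex (Set.countable_univ_iff.2 h)

/-- There is a linear map `l` to the complex numbers which vanishes on `J`, such that the
exponentials of the values of `l` at elements of the span of a countable set that are pairwise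
different modulo `J` have no linear relations with coefficients in the given countable set `C`. -/
theorem exists_lam {M : Type*} [AddCommGroup M] [Module ℚ M] (S : Set M) (hS : S.Countable)
    (J : Submodule ℚ M) (C : Set ℂ) (hC : C.Countable) :
    ∃ l : M →ₗ[ℚ] ℂ, (∀ v ∈ J, l v = 0) ∧
      ∀ (n : ℕ) (v : Fin n → M), (∀ i, v i ∈ Submodule.span ℚ S) →
        (∀ i i', i ≠ i' → v i - v i' ∉ J) → ∀ a : Fin n → ℂ, (∀ i, a i ∈ C) →
          ∑ i, a i * Complex.exp (l (v i)) = 0 → ∀ i, a i = 0 := by
  classical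
  let Vq : Submodule ℚ (M ⧸ J) := Submodule.span ℚ (J.mkQ '' S)
  let b1 := Basis.ofVectorSpace ℚ Vq
  let b2 := Basis.ofVectorSpace ℚ ℂ
  have h1 : Countable (Basis.ofVectorSpaceIndex ℚ Vq) := by
    have h2 : Module.rank ℚ Vq ≤ Cardinal.aleph0 :=
      (rank_span_le _).trans (Cardinal.mk_le_aleph0_iff.2 (hS.image _))
    rw [← b1.mk_eq_rank''] at h2
    exact Cardinal.mk_le_aleph0_iff.1 h2
  have h2 : Infinite (Basis.ofVectorSpaceIndex ℚ ℂ) := by
    by_contra hfin
    rw [not_infinite_iff_finite] at hfin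
    apply not_countable_cx
    have h3 : Countable (Basis.ofVectorSpaceIndex ℚ ℂ →₀ ℚ) := inferInstance
    exact b2.repr.toEquiv.injective.countable
  have hVc : Countable Vq := by
    have h3 : Countable (Basis.ofVectorSpaceIndex ℚ Vq →₀ ℚ) := inferInstance
    exact b1.repr.toEquiv.injective.countable
  obtain ⟨f1, hf1⟩ := exists_injective_nat (Basis.ofVectorSpaceIndex ℚ Vq)
  let f : Basis.ofVectorSpaceIndex ℚ Vq → Basis.ofVectorSpaceIndex ℚ ℂ :=
    fun i => Infinite.natEmbedding _ (f1 i)
  have hf : Function.Injective f := (Infinite.natEmbedding _).injective.comp hf1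
  let ν : Vq →ₗ[ℚ] ℂ := b1.constr ℚ (fun i => b2 (f i))
  have hν : Function.Injective ν :=
    b1.injective_constr_of_linearIndependent (b2.linearIndependent.comp f hf)
  -- choose the parameter outside a countable set
  have hQc : Countable C := hC
  let T : Type _ := Σ n : ℕ, {p : (Fin n → Vq) × (Fin n → C) //
    Function.Injective p.1 ∧ (fun i => (p.2 i : ℂ)) ≠ 0}
  have hTc : Countable T := inferInstance
  let F : T → ℂ → ℂ := fun p z => ∑ k, (p.2.1.2 k : ℂ) * Complex.exp (z * ν (p.2.1.1 k))
  have hbad : (⋃ p : T, {z | F p z = 0}).Countable := by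
    refine Set.countable_iUnion fun p => countable_zeros ?_ ?_
    · simp only [F]
      fun_prop
    · exact exists_exp_ne_zero (fun k => ν (p.2.1.1 k)) (hν.comp p.2.2.1)
        (fun k => (p.2.1.2 k : ℂ)) p.2.2.2
  obtain ⟨z, hz⟩ : ∃ z : ℂ, z ∉ ⋃ p : T, {z | F p z = 0} := by
    by_contra hcon
    push Not at hcon
    exact not_countable_complex (hbad.mono fun z _ => hcon z)
  let ν1 : Vq →ₗ[ℚ] ℂ := (LinearMap.mulLeft ℚ z).comp ν
  obtain ⟨ν', hν'⟩ := ν1.exists_extend
  refine ⟨ν' ∘ₗ J.mkQ, fun v hv => ?_, fun n v hv hd a haC ha => ?_⟩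
  · have h3 : J.mkQ v = 0 := by
      rw [Submodule.mkQ_apply, Submodule.Quotient.mk_eq_zero]
      exact hv
    rw [LinearMap.comp_apply, h3, map_zero]
  · have hvq : ∀ i, J.mkQ (v i) ∈ Vq := by
      intro i
      have h3 : J.mkQ (v i) ∈ (Submodule.span ℚ S).map J.mkQ := Submodule.mem_map_of_mem (hv i)
      rwa [Submodule.map_span] at h3
    have hval : ∀ i, (ν' ∘ₗ J.mkQ) (v i) = z * ν ⟨J.mkQ (v i), hvq i⟩ := fun i =>
      LinearMap.congr_fun hν' ⟨J.mkQ (v i), hvq i⟩
    by_contra hcon
    push Not at hcon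
    obtain ⟨k, hk⟩ := hcon
    apply hz
    rw [Set.mem_iUnion]
    refine ⟨⟨n, ⟨(fun i => ⟨J.mkQ (v i), hvq i⟩, fun i => ⟨a i, haC i⟩), ?_,
      fun h => hk (congrFun h k)⟩⟩, ?_⟩
    · intro i i' h
      by_contra hne
      apply hd i i' hne
      have h3 : J.mkQ (v i) = J.mkQ (v i') := congrArg Subtype.val h
      rwa [Submodule.mkQ_apply, Submodule.mkQ_apply, Submodule.Quotient.eq] at h3
    · change ∑ k, (a k : ℂ) * Complex.exp (z * ν ⟨J.mkQ (v k), hvq k⟩) = 0
      rw [← ha]
      refine Finset.sum_congr rfl fun i _ => ?_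
      rw [hval i]

end Pool.Agent.W2helper73.EX
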