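import Pool.Agent.W2helper73.EX.Vec

/-!
# Small vectors in all right ideals of a reduced odd group algebra
-/

namespace Pool.Agent.W2helper73.EX

section pushpull

variable {G H : Type} [Group G] [Group H]

/-- The pull-back of a function on `H`. -/
noncomputable def pull [Finite G] (π : G →* H) (b : MonoidAlgebra ℚ H) : MonoidAlgebra ℚ G :=
  MonoidAlgebra.ofCoeff (Finsupp.equivFunOnFinite.symm fun g => b.coeff (π g))

theorem coeff_pull [Finite G] (π : G →* H) (b : MonoidAlgebra ℚ H) (g : G) :
    (pull π b).coeff g = b.coeff (π g) := rfl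

open Classical in
/-- The sum over the fibres. -/
noncomputable def push [Fintype G] [Finite H] (π : G →* H) (B : MonoidAlgebra ℚ G) :
    MonoidAlgebra ℚ H :=
  MonoidAlgebra.ofCoeff (Finsupp.equivFunOnFinite.symm fun h =>
    ∑ g : G, if π g = h then B.coeff g else 0)

open Classical in
theorem coeff_push [Fintype G] [Finite H] (π : G →* H) (B : MonoidAlgebra ℚ G) (h : H) :
    (push π B).coeff h = ∑ g : G, if π g = h then B.coeff g else 0 := rfl

theorem mul_pull [Fintype G] [Finite H] (π : G →* H) (B : MonoidAlgebra ℚ G)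
    (b : MonoidAlgebra ℚ H) : B * pull π b = pull π (push π B * b) := by
  classical
  cases nonempty_fintype H
  refine MonoidAlgebra.ext (Finsupp.ext fun g => ?_)
  rw [coeff_pull, coeff_mul_sum, coeff_mul_sum]
  simp only [coeff_push, coeff_pull, Finset.sum_mul]
  rw [Finset.sum_comm]
  refine Finset.sum_congr rfl fun u _ => ?_
  rw [Finset.sum_eq_single_of_mem (π u) (Finset.mem_univ _), if_pos rfl, map_mul, map_inv]
  intro v _ hv
  rw [if_neg (Ne.symm hv), zero_mul]

theorem odd_push [Fintype G] [Finite H] (π : G →* H) {c : G} {B : MonoidAlgebra ℚ G}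
    (hB : Odd c B) : Odd (π c) (push π B) := by
  classical
  unfold Odd at *
  refine MonoidAlgebra.ext (Finsupp.ext fun h => ?_)
  rw [coeff_of_mul, coeff_push, MonoidAlgebra.coeff_neg, Finsupp.neg_apply, coeff_push,
    ← Finset.sum_neg_distrib]
  refine Fintype.sum_equiv (Equiv.mulLeft c) _ _ fun g => ?_
  rw [Equiv.coe_mulLeft, map_mul]
  have h1 : B.coeff g = -B.coeff (c * g) := by
    have h2 := congrArg (fun a => a.coeff (c * g)) hB
    change (MonoidAlgebra.of ℚ G c * B).coeff (c * g) = (-B).coeff (c * g) at h2
    rw [coeff_of_mul, inv_mul_cancel_left] at h2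
    exact h2
  by_cases hg : π g = (π c)⁻¹ * h
  · rw [if_pos hg, if_pos (by rw [hg, mul_inv_cancel_left]), h1]
  · rw [if_neg hg, if_neg (fun h3 => hg (by rw [← h3, inv_mul_cancel_left])), neg_zero]

theorem push_pull [Fintype G] [Finite H] (π : G →* H) (hπ : Function.Surjective π)
    (b : MonoidAlgebra ℚ H) : ∃ k : ℚ, push π (pull π b) = k • b := by
  classical
  refine ⟨((Finset.univ.filter fun g : G => π g = 1).card : ℚ), ?_⟩
  refine MonoidAlgebra.ext (Finsupp.ext fun h => ?_)
  rw [coeff_push, MonoidAlgebra.coeff_smul, Finsupp.smul_apply, smul_eq_mul]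
  have h1 : ∀ g : G, (if π g = h then (pull π b).coeff g else 0) =
      if π g = h then b.coeff h else 0 := by
    intro g
    split_ifs with hg
    · rw [coeff_pull, hg]
    · rfl
  rw [Finset.sum_congr rfl (fun g _ => h1 g), ← Finset.sum_filter, Finset.sum_const,
    nsmul_eq_mul]
  congr 2
  exact MonoidHom.card_fiber_eq_of_mem_range π (Set.mem_range.2 (hπ h))
    (Set.mem_range.2 (hπ 1))

theorem pull_injective [Finite G] (π : G →* H) (hπ : Function.Surjective π)
    {b : MonoidAlgebra ℚ H} (h : pull π b = 0) : b = 0 := by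
  refine MonoidAlgebra.ext (Finsupp.ext fun x => ?_)
  obtain ⟨g, rfl⟩ := hπ x
  rw [← coeff_pull, h]
  rfl

theorem oddReduced_quotient [Finite G] (π : G →* H) (hπ : Function.Surjective π) {c : G}
    (hr : OddReduced G c) : OddReduced H (π c) := by
  classical
  cases nonempty_fintype G
  have hH : Finite H := Finite.of_surjective π hπ
  intro a ha haa
  obtain ⟨k, hk⟩ := push_pull π hπ a
  refine pull_injective π hπ (hr (pull π a) ?_ ?_)
  · refine MonoidAlgebra.ext (Finsupp.ext fun g => ?_)
    rw [coeff_of_mul, coeff_pull, MonoidAlgebra.coeff_neg, Finsupp.neg_apply, coeff_pull]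
    have h2 := congrArg (fun x => x.coeff (π g)) ha
    change (MonoidAlgebra.of ℚ H (π c) * a).coeff (π g) = (-a).coeff (π g) at h2
    rw [coeff_of_mul] at h2
    rw [map_mul, map_inv, h2]
    rfl
  · rw [mul_pull, hk, smul_mul_assoc, haa, smul_zero]
    refine MonoidAlgebra.ext (Finsupp.ext fun g => ?_)
    rw [coeff_pull]
    rfl

end pushpull

/-- Every nonzero odd element of a reduced odd group algebra has a nonzero right multiple with
coefficients `0`, `1`, `-1`. -/
theorem exists_small_mul : ∀ (n : ℕ) (G : Type) [Group G] [Finite G] (c : G), Nat.card G ≤ n →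
    (∀ g : G, c * g = g * c) → c * c = 1 → OddReduced G c → ∀ B : MonoidAlgebra ℚ G, Odd c B →
      B ≠ 0 → ∃ y, B * y ≠ 0 ∧ SmallC (B * y) := by
  classical
  intro n
  induction n with
  | zero =>
    intro G _ _ c hn
    have := Nat.card_pos (α := G)
    omega
  | succ n ih =>
    intro G _ _ c hn hc hc2 hr B hB hB0
    cases nonempty_fintype G
    obtain ⟨y0, he1, he2⟩ := exists_idem hr hB
    set e := B * y0 with he
    have h0 : e ≠ 0 := by
      intro h
      rw [h, zero_mul] at he2
      exact hB0 he2.symm
    have ho : Odd c e := hB.mul y0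
    have hcen := comm_of_idem hc hr ho he1
    by_cases hF : Faithful e
    · obtain ⟨x, hx, hx0, hsmall, hxF⟩ := exists_vec hc hc2 hr h0 ho hF
      by_cases hy : (1 - e) * x = 0
      · rw [sub_mul, one_mul, sub_eq_zero] at hy
        refine ⟨y0 * x, ?_, ?_⟩
        · rw [← mul_assoc, ← he, ← hy]
          exact hx0
        · rw [← mul_assoc, ← he, ← hy]
          exact hsmall
      · exfalso
        have hyo : Odd c ((1 - e) * x) := hx.mul' hc _
        obtain ⟨z, hz1, hz2⟩ := exists_idem hr hyo
        set e2 := (1 - e) * x * z with he2def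
        have h20 : e2 ≠ 0 := by
          intro h
          rw [h, zero_mul] at hz2
          exact hy hz2.symm
        have ho2 : Odd c e2 := hyo.mul z
        have hcen2 := comm_of_idem hc hr ho2 hz1
        have hF2 : Faithful e2 := by
          intro p g hp hg
          have hgp : g ^ p = 1 := by rw [← hg]; exact pow_orderOf_eq_one g
          rw [hcen2, he2def, ← mul_assoc, comm_of_sq hc hc2 hr (k := (p : ℚ))
            (by exact_mod_cast hp.ne_zero) (geo_mul_geo hgp) hyo, mul_assoc (1 - e),
            hxF p g hp hg, mul_zero, zero_mul]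
        refine mul_ne_zero_of_faithful he1 hcen hF hz1 hcen2 hF2 h0 h20 ?_
        rw [he2def, ← mul_assoc, ← mul_assoc, mul_sub, mul_one, he1, sub_self, zero_mul, zero_mul]
    · unfold Faithful at hF
      push Not at hF
      obtain ⟨p, g, hp, hg, hne⟩ := hF
      have hgp : g ^ p = 1 := by rw [← hg]; exact pow_orderOf_eq_one g
      have hc1 : c ≠ 1 := c_ne_one h0 ho
      have hcord : orderOf c = 2 := orderOf_eq_prime (by rw [sq]; exact hc2) hc1
      have hcN : c ∉ Subgroup.zpowers g := by
        intro h
        have h1 : orderOf c ∣ orderOf g := orderOf_dvd_of_mem_zpowers h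
        rw [hcord, hg] at h1
        have h2 : p = 2 := ((Nat.prime_dvd_prime_iff_eq Nat.prime_two hp).1 h1).symm
        subst h2
        apply hne
        rw [← geo_congr hg hcord h]
        unfold geo
        rw [Finset.sum_range_succ, Finset.sum_range_one, pow_zero, pow_one, map_one, mul_add,
          mul_one, ho.right hc, add_neg_cancel]
      have hN := normal_zpowers hc hc2 hr hcN
      let π : G →* G ⧸ Subgroup.zpowers g := QuotientGroup.mk' (Subgroup.zpowers g)
      have hπ : Function.Surjective π := QuotientGroup.mk'_surjective _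
      have hpull1 : pull π 1 = geo g p := by
        refine MonoidAlgebra.ext (Finsupp.ext fun h => ?_)
        have h1 := coeff_geo g h
        rw [hg] at h1
        rw [h1, coeff_pull, MonoidAlgebra.one_def, MonoidAlgebra.coeff_single,
          Finsupp.single_apply]
        have h2 : (1 = π h) ↔ h ∈ Subgroup.zpowers g := by
          rw [eq_comm]
          exact QuotientGroup.eq_one_iff h
        by_cases h3 : h ∈ Subgroup.zpowers g
        · rw [if_pos h3, if_pos (h2.2 h3)]
        · rw [if_neg h3, if_neg (fun h4 => h3 (h2.1 h4))]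
      have hBg : B * geo g p ≠ 0 := by
        intro h
        apply hne
        rw [hcen, he, ← mul_assoc, comm_of_sq hc hc2 hr (k := (p : ℚ))
          (by exact_mod_cast hp.ne_zero) (geo_mul_geo hgp) hB, h, zero_mul]
      have hpush : push π B ≠ 0 := by
        intro h
        apply hBg
        rw [← hpull1, mul_pull, h, zero_mul]
        refine MonoidAlgebra.ext (Finsupp.ext fun g => ?_)
        rw [coeff_pull]
        rfl
      have hcard : Nat.card (G ⧸ Subgroup.zpowers g) ≤ n := by
        have h1 := Subgroup.card_eq_card_quotient_mul_card_subgroup (Subgroup.zpowers g)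
        rw [Nat.card_zpowers, hg] at h1
        have h2 := hp.two_le
        have h3 : 0 < Nat.card (G ⧸ Subgroup.zpowers g) := Nat.card_pos
        nlinarith
      obtain ⟨y, hy0, hy⟩ := ih (G ⧸ Subgroup.zpowers g) (π c) hcard (by
        intro x
        obtain ⟨x, rfl⟩ := hπ x
        rw [← map_mul, ← map_mul, hc]) (by rw [← map_mul, hc2, map_one])
        (oddReduced_quotient π hπ hr) (push π B) (odd_push π hB) hpush
      refine ⟨pull π y, ?_, ?_⟩
      · rw [mul_pull]
        exact fun h => hy0 (pull_injective π hπ h)
      · rw [mul_pull]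
        intro g
        rw [coeff_pull]
        exact hy _

end Pool.Agent.W2helper73.EX
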