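import Pool.Agent.W2helper73.EX.Coef

/-!
# Subgroups of prime order in the presence of a faithful central idempotent
-/

namespace Pool.Agent.W2helper73.EX

variable {G : Type} [Group G] {c : G}

open Classical in
theorem coeff_geo [Finite G] (a h : G) :
    (geo a (orderOf a)).coeff h = if h ∈ Subgroup.zpowers a then 1 else 0 := by
  unfold geo
  rw [MonoidAlgebra.coeff_sum, Finsupp.finsetSum_apply]
  have h1 : ∀ k ∈ Finset.range (orderOf a), (MonoidAlgebra.of ℚ G (a ^ k)).coeff h =
      if a ^ k = h then (1 : ℚ) else 0 := by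
    intro k _
    rw [MonoidAlgebra.of_apply, MonoidAlgebra.coeff_single, Finsupp.single_apply]
  rw [Finset.sum_congr rfl h1]
  by_cases hh : h ∈ Subgroup.zpowers a
  · rw [if_pos hh]
    obtain ⟨k, hk, hk'⟩ := Finset.mem_image.1 (mem_zpowers_iff_mem_range_orderOf.1 hh)
    rw [Finset.sum_eq_single_of_mem k hk, if_pos hk']
    intro k' hk1 hk2
    rw [if_neg]
    intro h3
    apply hk2
    exact pow_injOn_Iio_orderOf (by simpa using hk1) (by simpa using hk) (h3.trans hk'.symm)
  · rw [if_neg hh]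
    refine Finset.sum_eq_zero fun k hk => if_neg fun h3 => hh ?_
    rw [← h3]
    exact Subgroup.npow_mem_zpowers a k

/-- Subgroups generated by one element that do not contain `c` are normal. -/
theorem normal_zpowers [Finite G] (hc : ∀ g : G, c * g = g * c) (hc2 : c * c = 1)
    (hr : OddReduced G c) {a : G} (ha : c ∉ Subgroup.zpowers a) : (Subgroup.zpowers a).Normal := by
  classical
  set s := geo a (orderOf a) with hs
  have hcinv : c⁻¹ = c := inv_eq_of_mul_eq_one_left hc2
  refine ⟨fun n hn x => ?_⟩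
  have hodd : Odd c ((1 - MonoidAlgebra.of ℚ G c) * MonoidAlgebra.of ℚ G x) := by
    unfold Odd
    rw [← mul_assoc, mul_sub, mul_one, ← map_mul, hc2, map_one, ← neg_mul, neg_sub]
  have h1 := comm_of_sq hc hc2 hr (s := s) (k := (orderOf a : ℚ))
    (by exact_mod_cast (orderOf_pos a).ne') (geo_mul_geo (pow_orderOf_eq_one a)) hodd
  have h2 := congrArg (fun y => y.coeff (x * n)) h1
  have h3 : (s * ((1 - MonoidAlgebra.of ℚ G c) * MonoidAlgebra.of ℚ G x)).coeff (x * n) =
      s.coeff (x * n * x⁻¹) - s.coeff (c * (x * n * x⁻¹)) := by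
    rw [← mul_assoc, coeff_mul_of, mul_sub, mul_one, MonoidAlgebra.coeff_sub, Finsupp.sub_apply,
      coeff_mul_of, hcinv, ← hc]
  have h4 : ((1 - MonoidAlgebra.of ℚ G c) * MonoidAlgebra.of ℚ G x * s).coeff (x * n) = s.coeff n - s.coeff (c * n) := by
    rw [mul_assoc, sub_mul, one_mul, MonoidAlgebra.coeff_sub, Finsupp.sub_apply, coeff_of_mul,
      coeff_of_mul, coeff_of_mul, hcinv]
    have h5 : x⁻¹ * (c * (x * n)) = c * n := by
      rw [← mul_assoc c x n, hc x]
      group
    rw [h5, inv_mul_cancel_left]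
  have h5 : s.coeff (x * n * x⁻¹) - s.coeff (c * (x * n * x⁻¹)) = s.coeff n - s.coeff (c * n) := by
    rw [← h3, ← h4]
    exact h2
  have h6 : c * n ∉ Subgroup.zpowers a := by
    intro h7
    apply ha
    have := (Subgroup.zpowers a).mul_mem h7 ((Subgroup.zpowers a).inv_mem hn)
    rwa [mul_inv_cancel_right] at this
  rw [hs, coeff_geo a n, coeff_geo a (c * n), if_pos hn, if_neg h6, sub_zero, coeff_geo,
    coeff_geo] at h5
  by_contra hx
  rw [if_neg hx] at h5
  split_ifs at h5 <;> norm_num at h5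

variable {e : MonoidAlgebra ℚ G}

/-- Faithfulness. -/
theorem eq_one_of_mul [Finite G] (h0 : e ≠ 0) (hE : Faithful e) {g : G}
    (hg : e * MonoidAlgebra.of ℚ G g = e) : g = 1 := by
  by_contra hne
  have hn : orderOf g ≠ 1 := fun h => hne (orderOf_eq_one_iff.1 h)
  obtain ⟨p, hp, m, hm⟩ := Nat.exists_prime_and_dvd hn
  have hm0 : m ≠ 0 := by
    rintro rfl
    have := orderOf_pos g
    omega
  have hord : orderOf (g ^ m) = p := by
    rw [orderOf_pow, hm, Nat.gcd_eq_right (dvd_mul_left _ _),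
      Nat.mul_div_cancel _ (Nat.pos_of_ne_zero hm0)]
  have h1 : ∀ k, e * MonoidAlgebra.of ℚ G (g ^ k) = e := by
    intro k
    induction k with
    | zero => rw [pow_zero, map_one, mul_one]
    | succ k ih => rw [pow_succ, map_mul, ← mul_assoc, ih, hg]
  have h2 := hE p (g ^ m) hp hord
  unfold geo at h2
  rw [Finset.mul_sum] at h2
  have h3 : ∀ k ∈ Finset.range p, e * MonoidAlgebra.of ℚ G ((g ^ m) ^ k) = e := by
    intro k _
    rw [← pow_mul]
    exact h1 _
  rw [Finset.sum_congr rfl h3, Finset.sum_const, Finset.card_range,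
    ← Nat.cast_smul_eq_nsmul ℚ] at h2
  have h4 : (p : ℚ) ≠ 0 := by exact_mod_cast hp.ne_zero
  exact h0 ((smul_eq_zero.1 h2).resolve_left h4)

theorem c_ne_one (h0 : e ≠ 0) (ho : Odd c e) : c ≠ 1 := by
  rintro rfl
  apply h0
  unfold Odd at ho
  rw [map_one, one_mul] at ho
  have h1 : (2 : ℚ) • e = 0 := by
    rw [two_smul]
    nth_rewrite 1 [ho]
    exact neg_add_cancel e
  exact (smul_eq_zero.1 h1).resolve_left two_ne_zero

/-- `c` is the only involution. -/
theorem involution [Finite G] (hc : ∀ g : G, c * g = g * c) (hc2 : c * c = 1) (h0 : e ≠ 0)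
    (ho : Odd c e) (hE : Faithful e) {t : G} (ht : orderOf t = 2) : t = c := by
  have h1 := hE 2 t Nat.prime_two ht
  unfold geo at h1
  rw [Finset.sum_range_succ, Finset.sum_range_one, pow_zero, pow_one, map_one, mul_add,
    mul_one] at h1
  have h2 : e * MonoidAlgebra.of ℚ G (t * c) = e := by
    rw [map_mul, ← mul_assoc, eq_neg_of_add_eq_zero_right h1, neg_mul, ho.right hc, neg_neg]
  have h3 := eq_one_of_mul h0 hE h2
  have h4 : t = c⁻¹ := eq_inv_of_mul_eq_one_left h3
  rw [h4]
  exact inv_eq_of_mul_eq_one_left hc2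

theorem geo_one (p : ℕ) : geo (1 : G) p = (p : ℚ) • (1 : MonoidAlgebra ℚ G) := by
  unfold geo
  simp only [one_pow, map_one, Finset.sum_const, Finset.card_range]
  rw [← Nat.cast_smul_eq_nsmul ℚ]

theorem c_notMem [Finite G] (hc2 : c * c = 1) (hc1 : c ≠ 1) {p : ℕ}
    (hp2 : p ≠ 2) {a : G} (hp : p.Prime) (ha : orderOf a = p) : c ∉ Subgroup.zpowers a := by
  intro h
  have h1 : orderOf c = 2 := by
    apply orderOf_eq_prime _ hc1
    rw [sq]
    exact hc2
  have h2 : orderOf c ∣ orderOf a := orderOf_dvd_of_mem_zpowers h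
  rw [h1, ha] at h2
  exact hp2 ((Nat.prime_dvd_prime_iff_eq Nat.prime_two hp).1 h2).symm

/-- There is at most one subgroup of order `p` for odd prime numbers `p`. -/
theorem unique_subgroup [Finite G] (hc : ∀ g : G, c * g = g * c) (hc2 : c * c = 1)
    (hr : OddReduced G c) (h0 : e ≠ 0) (ho : Odd c e) (hE : Faithful e) {p : ℕ} (hp : p.Prime)
    (hp2 : p ≠ 2) {a b : G} (ha : orderOf a = p) (hb : orderOf b = p) :
    b ∈ Subgroup.zpowers a := by
  classical
  by_contra hba
  have hc1 := c_ne_one h0 ho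
  have hna := normal_zpowers hc hc2 hr (c_notMem hc2 hc1 hp2 hp ha)
  have hnb := normal_zpowers hc hc2 hr (c_notMem hc2 hc1 hp2 hp hb)
  have hca : Nat.card (Subgroup.zpowers a) = p := by rw [Nat.card_zpowers, ha]
  have hcb : Nat.card (Subgroup.zpowers b) = p := by rw [Nat.card_zpowers, hb]
  have hdisj : Disjoint (Subgroup.zpowers a) (Subgroup.zpowers b) := by
    rw [disjoint_iff]
    have h1 : Nat.card (Subgroup.zpowers a ⊓ Subgroup.zpowers b : Subgroup G) ∣ p := by
      rw [← hcb]
      exact Subgroup.card_dvd_of_le inf_le_right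
    rcases (Nat.dvd_prime hp).1 h1 with h2 | h2
    · exact Subgroup.card_eq_one.1 h2
    · exfalso
      have h3 : Subgroup.zpowers a ⊓ Subgroup.zpowers b = Subgroup.zpowers b :=
        Subgroup.eq_of_le_of_card_ge inf_le_right (by rw [h2, hcb])
      apply hba
      have h4 : b ∈ Subgroup.zpowers a ⊓ Subgroup.zpowers b := by
        rw [h3]
        exact Subgroup.mem_zpowers b
      exact h4.1
  have hcomm : Commute a b := Subgroup.commute_of_normal_of_disjoint _ _ hna hnb hdisj a b
    (Subgroup.mem_zpowers a) (Subgroup.mem_zpowers b)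
  have hap : a ^ p = 1 := by rw [← ha]; exact pow_orderOf_eq_one a
  have hbp : b ^ p = 1 := by rw [← hb]; exact pow_orderOf_eq_one b
  have h1 : ∀ i, e * geo (a * b ^ i) p = 0 := by
    intro i
    refine hE p _ hp ?_
    have : Fact p.Prime := ⟨hp⟩
    refine orderOf_eq_prime ?_ ?_
    · rw [(hcomm.pow_right i).mul_pow, hap, one_mul, ← pow_mul, mul_comm i p, pow_mul, hbp, one_pow]
    · intro h2
      have h3 : a ∈ Subgroup.zpowers b := by
        rw [eq_inv_of_mul_eq_one_left h2]
        exact Subgroup.inv_mem _ (Subgroup.npow_mem_zpowers b i)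
      have h4 : a ∈ Subgroup.zpowers a ⊓ Subgroup.zpowers b := ⟨Subgroup.mem_zpowers a, h3⟩
      rw [hdisj.eq_bot, Subgroup.mem_bot] at h4
      rw [h4, orderOf_one] at ha
      exact hp.one_lt.ne ha
  have h2 : ∀ k ∈ Finset.range p, k ≠ 0 → e * geo (b ^ k) p = 0 := by
    intro k hk hk0
    refine hE p _ hp ?_
    rw [orderOf_pow, hb]
    have h3 : Nat.gcd p k = 1 := by
      refine (Nat.Prime.coprime_iff_not_dvd hp).2 fun h => ?_
      have := Nat.le_of_dvd (Nat.pos_of_ne_zero hk0) h
      rw [Finset.mem_range] at hk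
      omega
    rw [h3, Nat.div_one]
  have h3 : ∑ i ∈ Finset.range p, geo (a * b ^ i) p =
      ∑ k ∈ Finset.range p, MonoidAlgebra.of ℚ G (a ^ k) * geo (b ^ k) p := by
    unfold geo
    rw [Finset.sum_comm]
    refine Finset.sum_congr rfl fun k _ => ?_
    rw [Finset.mul_sum]
    refine Finset.sum_congr rfl fun i _ => ?_
    rw [← map_mul, (hcomm.pow_right i).mul_pow, ← pow_mul, ← pow_mul, mul_comm i k]
  have hbcomm : ∀ k i : ℕ, MonoidAlgebra.of ℚ G (a ^ k) * geo (b ^ i) p = geo (b ^ i) p * MonoidAlgebra.of ℚ G (a ^ k) := by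
    intro k i
    unfold geo
    rw [Finset.mul_sum, Finset.sum_mul]
    refine Finset.sum_congr rfl fun l _ => ?_
    rw [← map_mul, ← map_mul, ← pow_mul, ((hcomm.pow_left k).pow_right (i * l)).eq]
  have h4 : e * ∑ i ∈ Finset.range p, geo (a * b ^ i) p = (p : ℚ) • e := by
    rw [h3, Finset.mul_sum, Finset.sum_eq_single_of_mem 0 (Finset.mem_range.2 hp.pos)]
    · rw [pow_zero, pow_zero, map_one, one_mul, geo_one, mul_smul_comm, mul_one]
    · intro k hk hk0
      rw [hbcomm, ← mul_assoc, h2 k hk hk0, zero_mul]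
  rw [Finset.mul_sum, Finset.sum_eq_zero (fun i _ => h1 i)] at h4
  have h5 : (p : ℚ) ≠ 0 := by exact_mod_cast hp.ne_zero
  exact h0 ((smul_eq_zero.1 h4.symm).resolve_left h5)

end Pool.Agent.W2helper73.EX
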