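import Pool.Agent.W2helper73.EX.Exa
import Pool.Agent.TH127.PG.Omega

/-!
# The smallest subtorsor that contains the period matrix
-/

set_option linter.unusedSectionVars false
set_option linter.unusedVariables false

namespace Pool.Agent.W2helper73.EX

open NumberField Pool.Agent.H204R3.CM Pool.Agent.W547.KB Pool.Agent.W537.PC Module
  Pool.Agent.W527 Pool.Agent.W527.Dec Pool.Agent.W527.Struct Pool.Agent.H977R3.WN
  Pool.Agent.W527.Vec Pool.Agent.W527.Per Pool.Agent.TH127.SC Pool.Agent.TH127.PT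
  Pool.Agent.TH127.PG Matrix

noncomputable section

/-- Every nonzero element of the group generated by the type functions of the family is small. -/
def SmallTypes {L : Type} [Field L] [NumberField L] [IsCMField L] [IsGalois ℚ L] (j : L →+* ℂ)
    {ι : Type} (A : ι → CMPair) : Prop :=
  ∀ B ∈ AddSubgroup.closure (typeFuns j A), B ≠ 0 → Small (cc L) B

variable {ι : Type} (A : ι → CMPair) [Fintype ι] {P : PeriodSystem}
  {L : Type} [Field L] [NumberField L] [IsCMField L] [IsGalois ℚ L] (j : L →+* ℂ)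

/-- Linear relations between the logarithms of the periods come from the types. -/
theorem rel_of_small (hB : P.Bost) (hD : P.Deligne) (hS : SmallTypes j A) (C : EE A L → ℤ)
    (hrel : ∀ g : L ≃ₐ[ℚ] L, ∑ z, C z • ww A j P z.1 (g • z.2) = 0) (σ : L ≃ₐ[ℚ] L) :
    ∑ z, C z • ee A j z.1 (σ • z.2) = 0 := by
  classical
  let lt : EE A L → Letter L := fun z => ⟨A z.1, z.2⟩
  let w : Multiset (Letter L) := ∑ z, (Multiset.replicate (C z).toNat (lt z) +
    Multiset.replicate (-C z).toNat ((lt z).act (cc L)))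
  have hsum : ∀ {U : Type} [AddCommGroup U] (F : Letter L → U),
      (∀ x, F (x.act (cc L)) = - F x) → (w.map F).sum = ∑ z, C z • F (lt z) := by
    intro U _ F hF
    let T : Multiset (Letter L) →+ U :=
      { toFun := fun m => (m.map F).sum
        map_zero' := by rw [Multiset.map_zero, Multiset.sum_zero]
        map_add' := fun m m' => by rw [Multiset.map_add, Multiset.sum_add] }
    have h1 : (w.map F).sum = ∑ z, ((Multiset.replicate (C z).toNat (lt z) +
        Multiset.replicate (-C z).toNat ((lt z).act (cc L))).map F).sum :=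
      map_sum T (fun z => Multiset.replicate (C z).toNat (lt z) +
          Multiset.replicate (-C z).toNat ((lt z).act (cc L))) Finset.univ
    rw [h1]
    refine Finset.sum_congr rfl fun z _ => ?_
    rw [Multiset.map_add, Multiset.sum_add, Multiset.map_replicate, Multiset.map_replicate,
      Multiset.sum_replicate, Multiset.sum_replicate, hF, smul_neg, ← sub_eq_add_neg,
      ← natCast_zsmul, ← natCast_zsmul, ← sub_smul]
    congr 1
    omega
  have hlt : ∀ (τ : L ≃ₐ[ℚ] L) z, (lt z).act τ = ⟨A z.1, τ • z.2⟩ := fun τ z => rfl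
  have hw : ∀ τ, AlgW j P (w.map (Letter.act τ)) := by
    intro τ
    rw [algW_iff, Multiset.map_map, hsum (WL j P ∘ Letter.act τ)]
    · rw [← hrel τ]
      rfl
    · intro x
      have h1 : (x.act (cc L)).act τ = (x.act τ).act (cc L) := by
        change (⟨x.B, τ • cc L • x.φ⟩ : Letter L) = ⟨x.B, cc L • τ • x.φ⟩
        rw [smul_smul, smul_smul, cc_comm j τ]
      rw [Function.comp_apply, h1, WL_cc j hD]
      rfl
  have hs : ∀ σ : L ≃ₐ[ℚ] L, (w.map fun x => x.s j σ).sum = ∑ z, C z • (lt z).s j σ := by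
    intro σ
    refine hsum (fun x => x.s j σ) fun x => ?_
    rw [Letter.s_act, ← cc_comm j, Letter.s_cc]
  have h1 := balanced_of_rl_small j P hB hD w hw (fun h0 => by
    refine hS _ ?_ h0
    have h2 : (fun σ : L ≃ₐ[ℚ] L => (w.map fun x => x.s j σ).sum) =
        ∑ z, C z • fun σ : L ≃ₐ[ℚ] L => (lt z).s j σ := by
      funext σ
      rw [hs, Finset.sum_apply]
      rfl
    rw [h2]
    refine AddSubgroup.sum_mem _ fun z _ => AddSubgroup.zsmul_mem _ ?_ _
    exact AddSubgroup.subset_closure ⟨z.1, z.2, rfl⟩) σ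
  rw [hs] at h1
  have h2 : ∑ z, C z • ee A j z.1 (σ • z.2) = ((∑ z, C z • (lt z).s j σ : ℤ) : ℚ) := by
    push_cast
    refine Finset.sum_congr rfl fun z _ => ?_
    rw [smul_eq_mul, Int.cast_mul, zsmul_eq_mul]
    rfl
  rw [h2, h1, Int.cast_zero]

/-- Monomials in the periods which are algebraic together with all their conjugates come from
characters that are trivial on the Mumford-Tate group. -/
theorem isMTChar_of_small (hB : P.Bost) (hD : P.Deligne)
    (hj : ∀ i, ∀ ψ : (A i).E →+* ℂ, ∃ φ : (A i).E →+* L, j.comp φ = ψ) (hS : SmallTypes j A)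
    (c : Embs (fun i => (A i).E) → ℤ)
    (hc : ∀ τ : ℂ ≃+* ℂ, ∏ x : Embs (fun i => (A i).E), P.θ (A x.1) x.2 ^ c (τ • x) ∈
      algebraicClosure ℚ ℂ) : IsMTChar A c := by
  classical
  have hj' : ∀ i, ∀ ψ : (A i).E →+* ℂ, ∃ φ : (A i).E →+* L, j.comp φ = ψ := hj
  let f : EE A L ≃ Embs (fun i => (A i).E) := embEquiv (F := fun i => (A i).E) j hj'
  have hf : ∀ z : EE A L, f z = (⟨z.1, j.comp z.2⟩ : Σ i, ((A i).E →+* ℂ)) := fun z => rfl
  let C : EE A L → ℤ := fun z => c (f z)
  have hτ : ∀ (τ : ℂ ≃+* ℂ) (g : L ≃ₐ[ℚ] L), Lifts j τ g → ∀ z : EE A L,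
      τ • f z = f ⟨z.1, g • z.2⟩ := by
    rintro τ g hg ⟨i, φ⟩
    exact congrArg (fun χ => (⟨i, χ⟩ : Σ i, ((A i).E →+* ℂ))) (lifts_comp j hg φ)
  let θ : EE A L → ℂ := fun z => P.θ (A z.1) (j.comp z.2)
  have hθ : ∀ z, θ z ≠ 0 := fun z => P.ne_zero _ _
  let sm : (L ≃ₐ[ℚ] L) → EE A L → EE A L := fun g z => ⟨z.1, g • z.2⟩
  have hsm : ∀ (g : L ≃ₐ[ℚ] L) (F : EE A L → VV), ∑ z, F (sm g z) = ∑ z, F z := by
    intro g F
    refine Fintype.sum_equiv ⟨sm g, sm g⁻¹, ?_, ?_⟩ _ _ fun z => rfl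
    · rintro ⟨i, φ⟩
      change (⟨i, g⁻¹ • g • φ⟩ : EE A L) = _
      rw [inv_smul_smul]
    · rintro ⟨i, φ⟩
      change (⟨i, g • g⁻¹ • φ⟩ : EE A L) = _
      rw [smul_inv_smul]
  -- logarithms
  have hlog : ∀ g : L ≃ₐ[ℚ] L, ∑ z, C z • lg (θ (sm g z)) = 0 := by
    intro g
    obtain ⟨τ, hg⟩ := exists_lift' j g⁻¹
    have h1 := hc τ
    rw [← Equiv.prod_comp f] at h1
    have h2 : ∏ z, P.θ (A (f z).1) (f z).2 ^ c (τ • f z) = ∏ z, θ z ^ C (sm g⁻¹ z) := by
      refine Finset.prod_congr rfl fun z _ => ?_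
      rw [hτ τ g⁻¹ hg z]
      rfl
    rw [h2, ← lg_eq_zero (Finset.prod_ne_zero_iff.2 fun y _ => zpow_ne_zero _ (hθ y)),
      lg_prod _ _ (fun y _ => zpow_ne_zero _ (hθ y))] at h1
    simp only [lg_zpow (hθ _)] at h1
    rw [← hsm g] at h1
    rw [← h1]
    refine Finset.sum_congr rfl fun z _ => ?_
    have h3 : sm g⁻¹ (sm g z) = z := by
      change (⟨z.1, g⁻¹ • g • z.2⟩ : EE A L) = z
      rw [inv_smul_smul]
    rw [h3]
  have hww : ∀ z : EE A L, ww A j P z.1 z.2 = (2 : ℤ) • lg (θ z) - lg tpi := by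
    intro z
    change lg (θ z ^ 2 / tpi) = _
    rw [lg_div (pow_ne_zero _ (hθ z)) tpi_ne, lg_pow (hθ z), ← natCast_zsmul]
    rfl
  have hE : ∀ g : L ≃ₐ[ℚ] L, ∑ z, C z • ww A j P z.1 (g • z.2) + (∑ z, C z) • lg tpi = 0 := by
    intro g
    have h2 : ∑ z, C z • ww A j P z.1 (g • z.2) = (2 : ℤ) • ∑ z, C z • lg (θ (sm g z)) -
        (∑ z, C z) • lg tpi := by
      rw [Finset.smul_sum, Finset.sum_smul, ← Finset.sum_sub_distrib]
      refine Finset.sum_congr rfl fun z _ => ?_
      rw [hww (sm g z), smul_sub, smul_comm]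
    rw [h2, hlog g, smul_zero, zero_sub, neg_add_cancel]
  have hcbar : ∀ (g : L ≃ₐ[ℚ] L) (z : EE A L), ww A j P z.1 (g • cbar z.2) =
      - ww A j P z.1 (g • z.2) := by
    intro g z
    have h1 : g • cbar z.2 = cbar (g • z.2) := rfl
    rw [h1, ww_odd A j hD]
  have hsum0 : ∑ z, C z = 0 := by
    have h1 := hE 1
    have h2 := hE (cc L)
    have h3 : ∑ z, C z • ww A j P z.1 (cc L • z.2) =
        - ∑ z, C z • ww A j P z.1 ((1 : L ≃ₐ[ℚ] L) • z.2) := by
      rw [← Finset.sum_neg_distrib]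
      refine Finset.sum_congr rfl fun z _ => ?_
      rw [one_smul, cc_smul j, ww_odd A j hD, smul_neg]
    rw [h3] at h2
    have h4 : (2 : ℤ) • ((∑ z, C z) • lg tpi) = 0 := by
      rw [two_zsmul]
      calc (∑ z, C z) • lg tpi + (∑ z, C z) • lg tpi =
          (∑ z, C z • ww A j P z.1 ((1 : L ≃ₐ[ℚ] L) • z.2) + (∑ z, C z) • lg tpi) +
          (- ∑ z, C z • ww A j P z.1 ((1 : L ≃ₐ[ℚ] L) • z.2) + (∑ z, C z) • lg tpi) := by abel
        _ = 0 := by rw [h1, h2, add_zero]
    have h5 := Pool.Agent.W527.Vec.zs_cancel two_ne_zero h4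
    by_contra hcon
    have h6 := Pool.Agent.W527.Vec.zs_cancel hcon h5
    exact tpi_transcendental ((lg_eq_zero tpi_ne).1 h6)
  have hrel : ∀ g : L ≃ₐ[ℚ] L, ∑ z, C z • ww A j P z.1 (g • z.2) = 0 := by
    intro g
    have h1 := hE g
    rwa [hsum0, zero_smul, add_zero] at h1
  intro τ
  obtain ⟨g, hg⟩ := exists_lift j τ
  have h4 : ∑ z, C z • ee A j z.1 (g • z.2) = 0 := rel_of_small A j hB hD hS C hrel g
  have h5 : ∑ z : EE A L, C z * wt (fun i => (A i).Φ) j z.1 (g • z.2) = 0 := by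
    have h6 : ((∑ z : EE A L, C z * wt (fun i => (A i).Φ) j z.1 (g • z.2) : ℤ) : ℚ) = 0 := by
      rw [← h4]
      push_cast
      refine Finset.sum_congr rfl fun z _ => ?_
      rw [zsmul_eq_mul]
      rfl
    exact_mod_cast h6
  rw [← Equiv.sum_comp f]
  have h6 : ∀ z : EE A L, (if (τ : ℂ →+* ℂ).comp (f z).2 ∈ (A (f z).1).Φ then c (f z) else 0) =
      (if j.comp (g • z.2) ∈ (A z.1).Φ then C z else 0) := by
    rintro ⟨i, φ⟩
    have h7 : (τ : ℂ →+* ℂ).comp (j.comp φ) = j.comp (g • φ) := lifts_comp j hg φ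
    change (if (τ : ℂ →+* ℂ).comp (j.comp φ) ∈ (A i).Φ then _ else _) = _
    rw [h7]
  rw [Finset.sum_congr rfl (fun z _ => h6 z)]
  have h7 : ∀ z : EE A L, C z * wt (fun i => (A i).Φ) j z.1 (g • z.2) =
      2 * (if j.comp (g • z.2) ∈ (A z.1).Φ then C z else 0) - C z := by
    intro z
    unfold wt
    split_ifs <;> ring
  rw [Finset.sum_congr rfl (fun z _ => h7 z), Finset.sum_sub_distrib, ← Finset.mul_sum,
    hsum0, sub_zero] at h5
  omega

/-- **The smallest subtorsor over a field that is linearly disjoint from the CM fields.** -/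
theorem mem_of_subtorsor_small {J : Type} [Fintype J] {t : J → ι}
    {N : Type} [Fintype N] [DecidableEq N] (hB : P.Bost) (hD : P.Deligne)
    (hj : ∀ i, ∀ ψ : (A i).E →+* ℂ, ∃ φ : (A i).E →+* L, j.comp φ = ψ) (hS : SmallTypes j A)
    {K : Subfield ℂ} (hK : ∀ x ∈ K, IsAlgebraic ℚ x) (hKA : LinearlyDisjoint A K)
    {e : Basis N ℚ (∀ a, (A (t a)).E)} {M : Matrix N N ℂ} (hM : IsPeriodMatrix A t P e M)
    {T : Set (Matrix N N ℂ)} (hTs : IsSubtorsor K T) (hMT : M ∈ T) {g : Matrix N N ℂ}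
    (hg : g ∈ mumfordTate A t e) : M * g ∈ T := by
  classical
  obtain ⟨B, hBa, hMB⟩ := hM
  obtain ⟨s, hs, hgs⟩ := hg
  let θ : Embs (fun i => (A i).E) → ℂ := fun x => P.θ (A x.1) x.2
  have hθ : ∀ x, θ x ≠ 0 := fun x => P.ne_zero _ _
  let π : PEmbs A t → Embs (fun i => (A i).E) := fun y => (⟨t y.1, y.2⟩ : Σ i, ((A i).E →+* ℂ))
  have hPA : M = B * diagonal (fun y => θ (π y)) * embMatrix A t e := by
    rw [hMB]
    congr 1
    ext n y
    rw [Matrix.mul_diagonal]
    rfl
  have hgs' : embMatrix A t e * g =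
      diagonal (fun y => ((s (π y) : ℂˣ) : ℂ)) * embMatrix A t e := by
    rw [hgs]
    ext y n
    rw [Matrix.diagonal_mul]
    rfl
  have hdet : IsUnit M.det := (Matrix.isUnit_iff_isUnit_det M).1 (hTs.isUnit M hMT)
  have h1 : (M⁻¹ * (B * diagonal (fun y => θ (π y)))) * embMatrix A t e = 1 := by
    rw [Matrix.mul_assoc, ← hPA, Matrix.nonsing_inv_mul M hdet]
  set Ψ := M⁻¹ * (B * diagonal (fun y => θ (π y))) with hΨ
  have h2 : embMatrix A t e * Ψ = 1 := (Matrix.mul_eq_one_comm_of_card_eq _ _ _ (card_eq A t e)).1 h1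
  have hπ : ∀ (σ : ℂ ≃+* ℂ) y, π (σ • y) = σ • π y := fun σ y => rfl
  have hΦ : ∀ (σ : ℂ ≃+* ℂ) (y : PEmbs A t) n,
      σ (embMatrix A t e y n) = embMatrix A t e (σ • y) n := fun σ y n => rfl
  have hΦa : ∀ y n, IsAlgebraic ℚ (embMatrix A t e y n) := by
    intro y n
    have h5 : IsAlgebraic ℚ (e n y.1) := Algebra.IsAlgebraic.isAlgebraic _
    exact (isAlgebraic_algHom_iff (RingHom.equivRatAlgHom _ ℂ y.2) y.2.injective).2 h5
  have hmem : s ∈ HH h1 h2 hTs hMT π := by
    refine mem_of_char h1 h2 hTs hMT hPA s fun c hc => hs c ?_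
    refine isMTChar_of_small A j hB hD hj hS c fun τ => ?_
    obtain ⟨σ, hσ, hστ⟩ := hKA τ
    have h6 := char_algebraic hπ hΦ h1 h2 hTs hMT hθ hPA hK hBa hΦa hc hσ
    have h7 : ∀ x : Embs (fun i => (A i).E), σ • x = τ • x := by
      rintro ⟨i, φ⟩
      exact congrArg (fun χ => (⟨i, χ⟩ : Σ i, ((A i).E →+* ℂ))) (hστ i φ)
    have h8 : ∏ x : Embs (fun i => (A i).E), P.θ (A x.1) x.2 ^ c (τ • x) =
        ∏ x, θ x ^ c (σ • x) := Finset.prod_congr rfl fun x _ => by rw [h7]
    rw [h8]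
    exact h6
  have hgE : g = Pool.Agent.TH127.PT.EE π (embMatrix A t e) Ψ s := by
    unfold Pool.Agent.TH127.PT.EE
    rw [Matrix.mul_assoc, ← hgs', ← Matrix.mul_assoc, h1, Matrix.one_mul]
  rw [hgE]
  exact hmem


theorem smallTypes_of_reduced {ι : Type} (A : ι → CMPair) (hA : ∀ i, ReducedField (A i).E) :
    SmallTypes j A := by
  intro B hB h0
  obtain ⟨n, x, hx⟩ := exists_word j A hB
  have h1 : B = fun σ => ∑ k, (⟨A (x k).1, (x k).2⟩ : Letter L).s j σ :=
    funext fun σ => (hx σ).symm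
  rw [h1] at h0 ⊢
  exact small_word j (fun k => (⟨A (x k).1, (x k).2⟩ : Letter L)) (fun k => hA _) h0

/-- The smallest `K`-subtorsor which contains `M`: the intersection of all of them. -/
def smallestSubtorsor {N : Type} [Fintype N] [DecidableEq N] (K : Subfield ℂ)
    (M : Matrix N N ℂ) : Set (Matrix N N ℂ) :=
  {X | ∀ T : Set (Matrix N N ℂ), IsSubtorsor K T → M ∈ T → X ∈ T}

/-- For all fields `K` of algebraic numbers that are linearly disjoint from the fields of the CM
types `A i`, and for all period matrices `M` of abelian varieties over `K` that are geometrically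
isogenous to products of copies of the `A i`, the smallest `K`-subtorsor that contains `M` contains
`M · MT(ℂ)`. -/
def SmallestIsMotivic (P : PeriodSystem) {ι : Type} [Fintype ι] (A : ι → CMPair) : Prop :=
  ∀ (K : Subfield ℂ), (∀ x ∈ K, IsAlgebraic ℚ x) → LinearlyDisjoint A K →
    ∀ {J : Type} [Fintype J] (t : J → ι) {N : Type} [Fintype N] [DecidableEq N]
      (e : Basis N ℚ (∀ a, (A (t a)).E)) (M : Matrix N N ℂ), IsPeriodMatrix A t P e M →
      ∀ g ∈ mumfordTate A t e, M * g ∈ smallestSubtorsor K M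

theorem smallestIsMotivic_of_small (hB : P.Bost) (hD : P.Deligne)
    (hj : ∀ i, ∀ ψ : (A i).E →+* ℂ, ∃ φ : (A i).E →+* L, j.comp φ = ψ) (hS : SmallTypes j A) :
    SmallestIsMotivic P A := by
  intro K hK hKA J _ t N _ _ e M hM g hg T hTs hMT
  exact mem_of_subtorsor_small A j hB hD hj hS hK hKA hM hTs hMT hg

theorem smallestIsMotivic_of_reduced (hB : P.Bost) (hD : P.Deligne)
    (hA : ∀ i, ReducedField (A i).E) : SmallestIsMotivic P A := by
  rcases isEmpty_or_nonempty ι with hι | hι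
  · intro K hK hKA J _ t N _ _ e M hM g hg T hTs hMT
    have hJ : IsEmpty J := ⟨fun a => hι.false (t a)⟩
    have hN : IsEmpty N := by
      have h1 := Module.finrank_eq_card_basis e
      have h2 : Module.finrank ℚ (∀ a, (A (t a)).E) = 0 := by
        rw [Module.finrank_pi_fintype]
        exact Fintype.sum_empty _
      rw [h2] at h1
      exact Fintype.card_eq_zero_iff.1 h1.symm
    have h1 : M * g = M := Subsingleton.elim _ _
    rw [h1]
    exact hMT
  obtain ⟨L, _, _, _, _, j, hj⟩ := exists_cm (⟨ι, A⟩ : CMAV)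
  exact smallestIsMotivic_of_small A j hB hD hj (smallTypes_of_reduced j A hA)

/-- For all period systems with the theorems of Bost and Deligne, all de Rham-Betti classes on
products of copies of the `A i` are Hodge classes, and the smallest subtorsors are motivic. -/
def Motivic {ι : Type} [Fintype ι] (A : ι → CMPair) : Prop :=
  ∀ P : PeriodSystem, P.Bost → P.Deligne → AllHodge P A ∧ SmallestIsMotivic P A

/-- For all period systems with the theorems of Bost and Deligne and with independence of the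
periods over `F`, all de Rham-Betti classes on products of copies of the `A i` are Hodge classes. -/
def HodgeOver (F : Subfield ℂ) {ι : Type} (A : ι → CMPair) : Prop :=
  ∀ P : PeriodSystem, P.Bost → P.Deligne → IndependentOver F P → AllHodge P A

/-- All embeddings of the fields of the family into the complex numbers factor over `j`. -/
def FieldsIn {L : Type} [Field L] (j : L →+* ℂ) {ι : Type} (A : ι → CMPair) : Prop :=
  ∀ i, ∀ ψ : (A i).E →+* ℂ, ∃ φ : (A i).E →+* L, j.comp φ = ψ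

/-- The group `G` is abelian, or dicyclic (generalized quaternion of order `4 n`), or conjugation by
any element maps any element `g` with `g * g ≠ c` to `g` or to its inverse. -/
def Tame (G : Type) [Group G] (c : G) : Prop :=
  (∀ g x : G, g * x = x * g) ∨ (∃ n : ℕ, n ≠ 0 ∧ Nonempty (G ≃* QuaternionGroup n)) ∨
    (∀ g x : G, x⁻¹ * g * x = g ∨ x⁻¹ * g * x = g⁻¹ ∨ g * g = c)

theorem reducedField_of_tame (E : Type) [Field E] [NumberField E] [IsCMField E] [IsGalois ℚ E]
    (h : Tame (E ≃ₐ[ℚ] E) (cc E)) : ReducedField E := by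
  refine ⟨‹IsGalois ℚ E›, ?_⟩
  obtain ⟨j⟩ : Nonempty (E →+* ℂ) := inferInstance
  rcases h with h | ⟨n, hn, ⟨e⟩⟩ | h
  · exact oddReduced_of_comm h cc_cc
  · have : NeZero n := ⟨hn⟩
    refine oddReduced_of_equiv e.symm ?_
    change OddReduced (QuaternionGroup n) (e (cc E))
    refine oddReduced_quaternion ?_ ?_
    · rw [← map_mul, cc_cc, map_one]
    · intro h1
      exact cc_ne (L := E) (e.injective (h1.trans (map_one e).symm))
  · exact oddReduced_of_conj (fun g => cc_comm j g) cc_cc h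

end

end Pool.Agent.W2helper73.EX
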