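import Pool.Agent.W2helper73.EX.Lam
import Pool.Agent.W527.CritMain
import Pool.Agent.W527.PerDefs

/-!
# Type functions of CM types on the group of automorphisms of the complex numbers
-/

namespace Pool.Agent.W2helper73.EX

open NumberField Pool.Agent.H204R3.CM Pool.Agent.W547.KB Pool.Agent.W537.PC Module
  Pool.Agent.W527 Pool.Agent.W527.Vec

noncomputable section

open Classical in
/-- The type function of an embedding `φ` of the field of a CM type: `1` at the automorphisms of the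
complex numbers that move `φ` into the CM type, `-1` at the others. -/
def tf (B : CMPair) (φ : B.E →+* ℂ) : (ℂ ≃+* ℂ) → ℚ := fun τ =>
  if (τ : ℂ →+* ℂ).comp φ ∈ B.Φ then 1 else -1

theorem tf_cases (B : CMPair) (φ : B.E →+* ℂ) (τ : ℂ ≃+* ℂ) : tf B φ τ = 1 ∨ tf B φ τ = -1 := by
  unfold tf
  split_ifs
  · exact Or.inl rfl
  · exact Or.inr rfl

/-- All type functions. -/
def allTf : Set ((ℂ ≃+* ℂ) → ℚ) := {F | ∃ (B : CMPair) (φ : B.E →+* ℂ), F = tf B φ}

theorem countable_allTf : allTf.Countable := by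
  classical
  have h1 : {x : ℂ | IsAlgebraic ℚ x}.Countable := Algebraic.countable ℚ ℂ
  have : Countable {x : ℂ | IsAlgebraic ℚ x} := h1
  let g : {x : ℂ | IsAlgebraic ℚ x} × Finset {x : ℂ | IsAlgebraic ℚ x} → (ℂ ≃+* ℂ) → ℚ :=
    fun p τ => if τ p.1 ∈ p.2.image Subtype.val then 1 else -1
  refine (Set.countable_range g).mono ?_
  rintro F ⟨B, φ, rfl⟩
  obtain ⟨α, hα⟩ := Field.exists_primitive_element ℚ B.E
  have hext : ∀ ψ ψ' : B.E →+* ℂ, ψ α = ψ' α → ψ = ψ' := by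
    intro ψ ψ' h
    have h2 : RingHom.equivRatAlgHom B.E ℂ ψ = RingHom.equivRatAlgHom B.E ℂ ψ' :=
      (Field.primitive_element_iff_algHom_eq_of_eval' ℚ ℂ
        (fun x => IsAlgClosed.splits _) α).1 hα h
    exact (RingHom.equivRatAlgHom B.E ℂ).injective h2
  have halg : ∀ ψ : B.E →+* ℂ, IsAlgebraic ℚ (ψ α) := by
    intro ψ
    have h2 : IsAlgebraic ℚ α := Algebra.IsAlgebraic.isAlgebraic α
    exact (isAlgebraic_algHom_iff (RingHom.equivRatAlgHom B.E ℂ ψ) ψ.injective).2 h2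
  refine ⟨(⟨φ α, halg φ⟩, (Finset.univ.filter fun ψ : B.E →+* ℂ => ψ ∈ B.Φ).image
    fun ψ => ⟨ψ α, halg ψ⟩), ?_⟩
  funext τ
  simp only [g, tf]
  congr 1
  rw [eq_iff_iff]
  constructor
  · intro h
    obtain ⟨x, hx, hx'⟩ := Finset.mem_image.1 h
    obtain ⟨ψ, hψ, rfl⟩ := Finset.mem_image.1 hx
    have h2 : (τ : ℂ →+* ℂ).comp φ = ψ := hext _ _ hx'.symm
    rw [h2]
    exact (Finset.mem_filter.1 hψ).2
  · intro h
    refine Finset.mem_image.2 ⟨⟨((τ : ℂ →+* ℂ).comp φ) α, halg _⟩, ?_, rfl⟩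
    exact Finset.mem_image.2 ⟨(τ : ℂ →+* ℂ).comp φ,
      Finset.mem_filter.2 ⟨Finset.mem_univ _, h⟩, rfl⟩

/-- The period system belonging to a linear map on the space of functions on the group of
automorphisms of the complex numbers. -/
def sysOf (l : ((ℂ ≃+* ℂ) → ℚ) →ₗ[ℚ] ℂ) : PeriodSystem where
  θ B φ := Complex.exp (Complex.log (2 * Real.pi * Complex.I) / 2 + l (tf B φ))
  ne_zero _ _ := Complex.exp_ne_zero _

theorem prod_sysOf (l : ((ℂ ≃+* ℂ) → ℚ) →ₗ[ℚ] ℂ) {k : ℕ} (B : Fin (2 * k) → CMPair)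
    (φ : ∀ i, (B i).E →+* ℂ) :
    (∏ i, (sysOf l).θ (B i) (φ i)) / (2 * Real.pi * Complex.I) ^ k =
      Complex.exp (l (∑ i, tf (B i) (φ i))) := by
  have h1 : ∏ i, (sysOf l).θ (B i) (φ i) = Complex.exp (∑ i,
      (Complex.log (2 * Real.pi * Complex.I) / 2 + l (tf (B i) (φ i)))) := by
    rw [Complex.exp_sum]
    rfl
  rw [h1, Finset.sum_add_distrib, Finset.sum_const, Finset.card_univ, Fintype.card_fin,
    Complex.exp_add, nsmul_eq_mul, map_sum]
  have h2 : ((2 * k : ℕ) : ℂ) * (Complex.log (2 * Real.pi * Complex.I) / 2) =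
      k * Complex.log (2 * Real.pi * Complex.I) := by
    push_cast
    ring
  rw [h2, Complex.exp_nat_mul, Complex.exp_log Complex.two_pi_I_ne_zero,
    mul_div_cancel_left₀ _ (pow_ne_zero k Complex.two_pi_I_ne_zero)]

variable {L : Type} [Field L] [NumberField L] [IsCMField L] [IsGalois ℚ L] (j : L →+* ℂ)

omit [IsCMField L] in
/-- The value of the type function at an automorphism which restricts to `σ`. -/
theorem tf_of_lifts (x : Letter L) {τ : ℂ ≃+* ℂ} {σ : L ≃ₐ[ℚ] L} (h : Lifts j τ σ) :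
    tf x.B (j.comp x.φ) τ = x.s j σ := by
  unfold tf Letter.s
  rw [lifts_comp j h x.φ]
  push_cast
  rfl

end

end Pool.Agent.W2helper73.EX
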