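import Mathlib

/-!
# The trace of an operator annihilated by an irreducible polynomial
-/

namespace Pool.Agent.W2helper73.EX

open Polynomial

theorem eq_pow_of_roots {Φ : ℚ[X]} (hΦ : Irreducible Φ) (hm : Φ.Monic) :
    ∀ (n : ℕ) (q : ℚ[X]), q.natDegree ≤ n → q.Monic →
      (∀ z : ℂ, aeval z q = 0 → aeval z Φ = 0) → ∃ r : ℕ, q = Φ ^ r := by
  intro n
  induction n with
  | zero =>
    intro q hq hqm _
    exact ⟨0, by rw [pow_zero]; exact hqm.natDegree_eq_zero.1 (Nat.le_zero.1 hq)⟩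
  | succ n ih =>
    intro q hq hqm hroot
    by_cases h0 : q.natDegree = 0
    · exact ih q (by omega) hqm hroot
    obtain ⟨z, hz⟩ : ∃ z : ℂ, aeval z q = 0 := by
      obtain ⟨z, hz⟩ := IsAlgClosed.exists_aeval_eq_zero ℂ q (by
        rw [degree_eq_natDegree hqm.ne_zero]
        exact_mod_cast h0)
      exact ⟨z, hz⟩
    have h1 : Φ = minpoly ℚ z :=
      minpoly.eq_of_irreducible_of_monic hΦ (hroot z hz) hm
    have h2 : Φ ∣ q := by
      rw [h1]
      exact minpoly.dvd ℚ z hz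
    obtain ⟨q', rfl⟩ := h2
    have hq'm : q'.Monic := hm.of_mul_monic_left hqm
    obtain ⟨r, hr⟩ := ih q' (by
      rw [hm.natDegree_mul hq'm] at hq
      have := hΦ.natDegree_pos
      omega) hq'm (fun w hw => hroot w (by rw [map_mul, hw, mul_zero]))
    exact ⟨r + 1, by rw [hr, pow_succ, mul_comm]⟩

theorem charpoly_root {V : Type*} [AddCommGroup V] [Module ℚ V] [Module.Finite ℚ V]
    (T : V →ₗ[ℚ] V) (Φ : ℚ[X]) (hT : aeval T Φ = 0) (z : ℂ) (hz : aeval z T.charpoly = 0) :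
    aeval z Φ = 0 := by
  classical
  let b := Module.finBasis ℚ V
  let M : Matrix _ _ ℚ := LinearMap.toMatrix b b T
  have h1 : T.charpoly = M.charpoly := (LinearMap.charpoly_toMatrix T b).symm
  have hM : aeval M Φ = 0 := by
    have h2 := congrArg (LinearMap.toMatrixAlgEquiv b) hT
    rw [map_zero, ← AlgEquiv.coe_toAlgHom, ← Polynomial.aeval_algHom_apply] at h2
    exact h2
  let MC : Matrix _ _ ℂ := M.map (algebraMap ℚ ℂ)
  have hMC : aeval MC (Φ.map (algebraMap ℚ ℂ)) = 0 := by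
    rw [Polynomial.aeval_map_algebraMap]
    have h3 : MC = (Algebra.ofId ℚ ℂ).mapMatrix M := rfl
    rw [h3, Polynomial.aeval_algHom_apply, hM, map_zero]
  have h4 : Module.End.HasEigenvalue (Matrix.toLin' MC) z := by
    rw [Module.End.hasEigenvalue_iff_isRoot_charpoly, Matrix.charpoly_toLin']
    rw [h1] at hz
    rw [Matrix.charpoly_map, Polynomial.IsRoot.def, Polynomial.eval_map]
    exact hz
  obtain ⟨v, hv⟩ := h4.exists_hasEigenvector
  have h5 := Module.End.aeval_apply_of_hasEigenvector (p := Φ.map (algebraMap ℚ ℂ)) hv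
  have h6 : aeval (Matrix.toLin' MC) (Φ.map (algebraMap ℚ ℂ)) = 0 := by
    have h7 : Matrix.toLin' MC = (Matrix.toLinAlgEquiv' MC) := rfl
    rw [h7, ← AlgEquiv.coe_toAlgHom, Polynomial.aeval_algHom_apply, hMC, map_zero]
  rw [h6, LinearMap.zero_apply] at h5
  have h8 := (smul_eq_zero.1 h5.symm).resolve_right hv.2
  rwa [Polynomial.eval_map] at h8

theorem trace_of_irreducible {V : Type*} [AddCommGroup V] [Module ℚ V] [Module.Finite ℚ V]
    (T : V →ₗ[ℚ] V) {Φ : ℚ[X]} (hΦ : Irreducible Φ) (hm : Φ.Monic) (hT : aeval T Φ = 0) :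
    (Φ.natDegree : ℚ) * LinearMap.trace ℚ V T = -(Module.finrank ℚ V * Φ.nextCoeff) := by
  classical
  obtain ⟨r, hr⟩ := eq_pow_of_roots hΦ hm T.charpoly.natDegree T.charpoly le_rfl
    T.charpoly_monic (fun z hz => charpoly_root T Φ hT z hz)
  have h1 : LinearMap.trace ℚ V T = - (r * Φ.nextCoeff) := by
    have h2 : LinearMap.trace ℚ V T = - T.charpoly.nextCoeff := by
      let b := Module.finBasis ℚ V
      rw [LinearMap.trace_eq_matrix_trace ℚ b, ← LinearMap.charpoly_toMatrix T b]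
      exact Matrix.trace_eq_neg_charpoly_nextCoeff _
    rw [h2, hr, hm.nextCoeff_pow, nsmul_eq_mul]
  have h3 : Module.finrank ℚ V = r * Φ.natDegree := by
    rw [← T.charpoly_natDegree, hr, natDegree_pow]
  rw [h1, h3]
  push_cast
  ring

end Pool.Agent.W2helper73.EX
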