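import Pool.Agent.W2helper73.EX.Norm

/-!
# A small vector in the faithful part
-/

namespace Pool.Agent.W2helper73.EX

variable {G : Type} [Group G] {c : G}

/-- The coefficients are `0`, `1`, `-1`. -/
def SmallC (x : MonoidAlgebra ℚ G) : Prop := ∀ g, x.coeff g = 0 ∨ x.coeff g = 1 ∨ x.coeff g = -1

theorem geo_congr [Finite G] {a b : G} {p : ℕ} (ha : orderOf a = p) (hb : orderOf b = p)
    (hab : b ∈ Subgroup.zpowers a) : geo b p = geo a p := by
  classical
  have h1 : Subgroup.zpowers b = Subgroup.zpowers a := by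
    refine Subgroup.eq_of_le_of_card_ge (Subgroup.zpowers_le.2 hab) ?_
    rw [Nat.card_zpowers, Nat.card_zpowers, ha, hb]
  refine MonoidAlgebra.ext (Finsupp.ext fun h => ?_)
  have h2 := coeff_geo b h
  have h3 := coeff_geo a h
  rw [hb] at h2
  rw [ha] at h3
  rw [h2, h3]
  simp only [h1]

theorem card_sup_dvd (K N : Subgroup G) [N.Normal] :
    Nat.card (K ⊔ N : Subgroup G) ∣ Nat.card K * Nat.card N := by
  have h1 := Subgroup.relIndex_mul_relIndex (⊥ : Subgroup G) N (K ⊔ N) bot_le le_sup_right
  rw [Subgroup.relIndex_bot_left, Subgroup.relIndex_bot_left, Subgroup.relIndex_sup_right] at h1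
  rw [← h1, mul_comm]
  exact mul_dvd_mul_right (Subgroup.relIndex_dvd_card N K) _

variable {e : MonoidAlgebra ℚ G}

theorem exists_vec_aux [Finite G] (hc : ∀ g : G, c * g = g * c) (hc2 : c * c = 1)
    (hr : OddReduced G c) (h0 : e ≠ 0) (ho : Odd c e) (hE : Faithful e) (T : Finset ℕ) :
    (∀ p ∈ T, p.Prime ∧ p ≠ 2) →
    ∃ (K : Subgroup G) (x : MonoidAlgebra ℚ G),
      (∀ q : ℕ, q.Prime → q ∣ Nat.card K → q = 2 ∨ q ∈ T) ∧ (∀ g, g ∉ K → x.coeff g = 0) ∧
      Odd c x ∧ x ≠ 0 ∧ SmallC x ∧ ∀ p ∈ T, ∀ g : G, orderOf g = p → x * geo g p = 0 := by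
  classical
  have hc1 : c ≠ 1 := c_ne_one h0 ho
  have hord : orderOf c = 2 := orderOf_eq_prime (by rw [sq]; exact hc2) hc1
  induction T using Finset.induction_on with
  | empty =>
    intro _
    have hcoef : ∀ g, (1 - MonoidAlgebra.of ℚ G c : MonoidAlgebra ℚ G).coeff g =
        (if (1 : G) = g then 1 else 0) - (if c = g then 1 else 0) := by
      intro g
      rw [MonoidAlgebra.coeff_sub, Finsupp.sub_apply, MonoidAlgebra.one_def,
        MonoidAlgebra.of_apply, MonoidAlgebra.coeff_single, MonoidAlgebra.coeff_single,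
        Finsupp.single_apply, Finsupp.single_apply]
    refine ⟨Subgroup.zpowers c, 1 - MonoidAlgebra.of ℚ G c, ?_, ?_, ?_, ?_, ?_, ?_⟩
    · intro q hq hqd
      rw [Nat.card_zpowers, hord] at hqd
      exact Or.inl ((Nat.prime_dvd_prime_iff_eq hq Nat.prime_two).1 hqd)
    · intro g hg
      rw [hcoef, if_neg, if_neg, sub_zero]
      · rintro rfl
        exact hg (Subgroup.mem_zpowers _)
      · rintro rfl
        exact hg (Subgroup.one_mem _)
    · unfold Odd
      rw [mul_sub, mul_one, ← map_mul, hc2, map_one, neg_sub]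
    · intro h
      have h2 := hcoef 1
      rw [h, if_pos rfl, if_neg hc1, sub_zero] at h2
      exact zero_ne_one h2
    · intro g
      rw [hcoef]
      split_ifs with h1 h2 h2
      · exact absurd (h2.trans h1.symm) hc1
      · right; left; ring
      · right; right; ring
      · left; ring
    · intro p hp
      exact absurd hp (Finset.notMem_empty p)
  | insert p T hpT ih =>
    intro hT
    obtain ⟨K, x, hK, hsupp, hx, hx0, hsmall, hrel⟩ :=
      ih fun q hq => hT q (Finset.mem_insert_of_mem hq)
    obtain ⟨hp, hp2⟩ := hT p (Finset.mem_insert_self p T)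
    by_cases hex : ∃ a : G, orderOf a = p
    swap
    · refine ⟨K, x, fun q hq hqd => ?_, hsupp, hx, hx0, hsmall, ?_⟩
      · rcases hK q hq hqd with h | h
        · exact Or.inl h
        · exact Or.inr (Finset.mem_insert_of_mem h)
      · intro q hq g hg
        rcases Finset.mem_insert.1 hq with rfl | hq
        · exact absurd ⟨g, hg⟩ hex
        · exact hrel q hq g hg
    obtain ⟨a, ha⟩ := hex
    have hnorm : (Subgroup.zpowers a).Normal :=
      normal_zpowers hc hc2 hr (c_notMem hc2 hc1 hp2 hp ha)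
    have haK : a ∉ K := by
      intro h
      have h1 : p ∣ Nat.card K := by
        rw [← ha]
        exact Subgroup.orderOf_dvd_natCard K h
      rcases hK p hp h1 with h2 | h2
      · exact hp2 h2
      · exact hpT h2
    have hcoef : ∀ g, ((1 - MonoidAlgebra.of ℚ G a) * x).coeff g = x.coeff g - x.coeff (a⁻¹ * g) := by
      intro g
      rw [sub_mul, one_mul, MonoidAlgebra.coeff_sub, Finsupp.sub_apply, coeff_of_mul]
    refine ⟨K ⊔ Subgroup.zpowers a, (1 - MonoidAlgebra.of ℚ G a) * x, ?_, ?_, ?_, ?_, ?_, ?_⟩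
    · intro q hq hqd
      have h1 := hqd.trans (card_sup_dvd K (Subgroup.zpowers a))
      rw [Nat.card_zpowers, ha] at h1
      rcases hq.dvd_mul.1 h1 with h2 | h2
      · rcases hK q hq h2 with h3 | h3
        · exact Or.inl h3
        · exact Or.inr (Finset.mem_insert_of_mem h3)
      · right
        rw [(Nat.prime_dvd_prime_iff_eq hq hp).1 h2]
        exact Finset.mem_insert_self p T
    · intro g hg
      rw [hcoef, hsupp g (fun h => hg ((le_sup_left : K ≤ K ⊔ Subgroup.zpowers a) h)),
        hsupp (a⁻¹ * g) ?_, sub_zero]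
      intro h
      apply hg
      have h1 : a * (a⁻¹ * g) ∈ K ⊔ Subgroup.zpowers a := Subgroup.mul_mem _
        ((le_sup_right : Subgroup.zpowers a ≤ K ⊔ Subgroup.zpowers a) (Subgroup.mem_zpowers a))
        ((le_sup_left : K ≤ K ⊔ Subgroup.zpowers a) h)
      rwa [mul_inv_cancel_left] at h1
    · exact hx.mul' hc _
    · intro h
      apply hx0
      refine MonoidAlgebra.ext (Finsupp.ext fun g => ?_)
      by_cases hg : g ∈ K
      · have h1 := hcoef g
        rw [h] at h1
        have h2 : a⁻¹ * g ∉ K := by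
          intro h3
          apply haK
          have h4 := K.mul_mem hg (K.inv_mem h3)
          rwa [mul_inv_rev, inv_inv, mul_inv_cancel_left] at h4
        rw [hsupp _ h2, sub_zero] at h1
        exact h1.symm
      · exact hsupp g hg
    · intro g
      rw [hcoef]
      by_cases hg : g ∈ K
      · have h2 : a⁻¹ * g ∉ K := by
          intro h3
          apply haK
          have h4 := K.mul_mem hg (K.inv_mem h3)
          rwa [mul_inv_rev, inv_inv, mul_inv_cancel_left] at h4
        rw [hsupp _ h2, sub_zero]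
        exact hsmall g
      · rw [hsupp _ hg, zero_sub]
        rcases hsmall (a⁻¹ * g) with h | h | h
        · left; rw [h, neg_zero]
        · right; right; rw [h]
        · right; left; rw [h, neg_neg]
    · intro q hq g hg
      rcases Finset.mem_insert.1 hq with rfl | hq
      · have h1 : g ∈ Subgroup.zpowers a := unique_subgroup hc hc2 hr h0 ho hE hp hp2 ha hg
        have haq : a ^ q = 1 := by rw [← ha]; exact pow_orderOf_eq_one a
        rw [geo_congr ha hg h1, mul_assoc, ← comm_of_sq hc hc2 hr (s := geo a q) (k := (q : ℚ))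
          (by exact_mod_cast hp.ne_zero) (geo_mul_geo haq) hx, ← mul_assoc, sub_mul, one_mul,
          of_mul_geo haq, sub_self, zero_mul]
      · rw [mul_assoc, hrel q hq g hg, mul_zero]

/-- The small vector in the faithful part. -/
theorem exists_vec [Finite G] (hc : ∀ g : G, c * g = g * c) (hc2 : c * c = 1)
    (hr : OddReduced G c) (h0 : e ≠ 0) (ho : Odd c e) (hE : Faithful e) :
    ∃ x : MonoidAlgebra ℚ G, Odd c x ∧ x ≠ 0 ∧ SmallC x ∧ Faithful x := by
  classical
  obtain ⟨K, x, -, -, hx, hx0, hsmall, hrel⟩ := exists_vec_aux hc hc2 hr h0 ho hE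
    ((Finset.range (Nat.card G + 1)).filter fun p => p.Prime ∧ p ≠ 2) (by
      intro p hp
      exact (Finset.mem_filter.1 hp).2)
  refine ⟨x, hx, hx0, hsmall, fun p g hp hg => ?_⟩
  by_cases hp2 : p = 2
  · subst hp2
    rw [involution hc hc2 h0 ho hE hg]
    unfold geo
    rw [Finset.sum_range_succ, Finset.sum_range_one, pow_zero, pow_one, map_one, mul_add, mul_one,
      hx.right hc, add_neg_cancel]
  · refine hrel p (Finset.mem_filter.2 ⟨Finset.mem_range.2 ?_, hp, hp2⟩) g hg
    have h1 : orderOf g ∣ Nat.card G := orderOf_dvd_natCard g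
    rw [hg] at h1
    have := Nat.le_of_dvd Nat.card_pos h1
    omega

end Pool.Agent.W2helper73.EX
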